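import Pool.Agent.K4H1.VN.Fp

/-!
# Approximate characters of finitely presented groups
-/

set_option autoImplicit false

namespace Pool.Agent.K4H1.VN

open Filter Topology

theorem approx_char {Γ : Type} [Group Γ] {S B : Finset Γ} (hSB : S ⊆ B)
    (hB : ∀ (Λ : Type) [Group Λ] (π : Γ → Λ),
      (∀ g ∈ B, ∀ h ∈ B, g * h ∈ B → π (g * h) = π g * π h) → ∃ φ : Γ →* Λ, ∀ g ∈ S, φ g = π g)
    {δ : ℝ} (hδ : 0 < δ) : ∃ ε : ℝ, 0 < ε ∧ ∀ c : Γ → Circle,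
      (∀ g ∈ B, ∀ h ∈ B, g * h ∈ B → dist (c (g * h)) (c g * c h) < ε) →
      ∃ χ : Γ →* Circle, ∀ s ∈ S, dist (c s) (χ s) < δ := by
  classical
  by_contra hcon
  push Not at hcon
  have hn : ∀ n : ℕ, (0 : ℝ) < 1 / (n + 1) := fun n => by positivity
  choose c hc hc' using fun n : ℕ => hcon (1 / (n + 1)) (hn n)
  obtain ⟨a, θ, hθ, ha⟩ := SeqCompactSpace.tendsto_subseq (X := B → Circle)
    (fun n => fun b => c n b)
  have hlim : ∀ g (hg : g ∈ B), Tendsto (fun n => c (θ n) g) atTop (𝓝 (a ⟨g, hg⟩)) := by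
    intro g hg
    exact (tendsto_pi_nhds.1 ha) ⟨g, hg⟩
  let π : Γ → Circle := fun g => if h : g ∈ B then a ⟨g, h⟩ else 1
  have hπ : ∀ g (hg : g ∈ B), π g = a ⟨g, hg⟩ := fun g hg => dif_pos hg
  have hmul : ∀ g ∈ B, ∀ h ∈ B, g * h ∈ B → π (g * h) = π g * π h := by
    intro g hg h hh hgh
    rw [hπ g hg, hπ h hh, hπ _ hgh]
    have h1 : Tendsto (fun n => dist (c (θ n) (g * h)) (c (θ n) g * c (θ n) h)) atTop
        (𝓝 (dist (a ⟨g * h, hgh⟩) (a ⟨g, hg⟩ * a ⟨h, hh⟩))) :=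
      (hlim _ hgh).dist ((hlim g hg).mul (hlim h hh))
    have h2 : Tendsto (fun n => dist (c (θ n) (g * h)) (c (θ n) g * c (θ n) h)) atTop (𝓝 0) := by
      refine squeeze_zero (fun n => dist_nonneg) (fun n => (hc (θ n) g hg h hh hgh).le) ?_
      exact (tendsto_one_div_add_atTop_nhds_zero_nat (𝕜 := ℝ)).comp hθ.tendsto_atTop
    exact dist_eq_zero.1 (tendsto_nhds_unique h1 h2)
  obtain ⟨χ, hχ⟩ := hB Circle π hmul
  have hev : ∀ s ∈ S, ∀ᶠ n in atTop, dist (c (θ n) s) (χ s) < δ := by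
    intro s hs
    rw [hχ s hs, hπ s (hSB hs)]
    exact (Metric.tendsto_nhds.1 (hlim s (hSB hs))) δ hδ
  have hev' : ∀ᶠ n in atTop, ∀ s ∈ S, dist (c (θ n) s) (χ s) < δ :=
    (eventually_all_finset S).2 hev
  obtain ⟨n, hn'⟩ := hev'.exists
  obtain ⟨s, hs, h1⟩ := hc' (θ n) χ
  exact absurd (hn' s hs) (not_lt.2 h1)

end Pool.Agent.K4H1.VN
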