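import Pool.Agent.K4H1.VN.Sh
import Pool.Agent.K4H1.VN.Ch

/-!
# From almost group-like unitaries to an intertwiner
-/

set_option autoImplicit false

namespace Pool.Agent.K4H1.VN

open scoped ComplexConjugate InnerProductSpace
open Pool.Agent.Y276.Rig

section approx

variable {Λ : Type} [Group Λ]

theorem norm_apply_le (f : L2 Λ) (x : Λ) : ‖f x‖ ≤ ‖f‖ := lp.norm_apply_le_norm (by norm_num) f x

/-- a unit vector with a large coefficient is close to a multiple of a basis vector -/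
theorem near_delta {f : L2 Λ} (hf : ‖f‖ = 1) {h : Λ} {ε : ℝ} (hε : ε < 1) (hh : 1 - ε < ‖f h‖) :
    ∃ c : Circle, ‖f - (c : ℂ) • delta h‖ ^ 2 ≤ 2 * ε := by
  have ha : f h ≠ 0 := by
    intro h0
    rw [h0, norm_zero] at hh
    linarith
  have hn : 0 < ‖f h‖ := norm_pos_iff.2 ha
  refine ⟨⟨f h / ‖f h‖, mem_sphere_zero_iff_norm.2 (by
    rw [norm_div, Complex.norm_real, norm_norm, div_self hn.ne'])⟩, ?_⟩
  rw [norm_sub_sq (𝕜 := ℂ), hf, norm_smul, norm_delta, inner_smul_right, ← inner_conj_symm,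
    inner_delta]
  have h1 : (f h / ‖f h‖) * conj (f h) = (‖f h‖ : ℂ) := by
    rw [div_mul_eq_mul_div, Complex.mul_conj, Complex.normSq_eq_norm_sq, Complex.ofReal_pow, sq,
      mul_div_assoc, div_self (Complex.ofReal_ne_zero.2 hn.ne'), mul_one]
  show 1 ^ 2 - 2 * RCLike.re ((f h / ‖f h‖) * conj (f h)) + (‖f h / (‖f h‖ : ℂ)‖ * 1) ^ 2 ≤ 2 * ε
  rw [h1, norm_div, Complex.norm_real, norm_norm, div_self hn.ne']
  have h2 : RCLike.re ((‖f h‖ : ℝ) : ℂ) = ‖f h‖ := Complex.ofReal_re _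
  rw [h2]
  nlinarith

/-- two multiples of basis vectors which are close -/
theorem delta_close {x y : Λ} {a b : Circle} {r : ℝ} (hr : r < 1)
    (h : ‖(a : ℂ) • (delta x : L2 Λ) - (b : ℂ) • delta y‖ ≤ r) : x = y ∧ dist a b ≤ r := by
  classical
  have h1 := (norm_apply_le _ x).trans h
  have h2 : ((a : ℂ) • (delta x : L2 Λ) - (b : ℂ) • delta y) x =
      (a : ℂ) - (b : ℂ) * (if x = y then 1 else 0) := by
    rw [lp.coeFn_sub, Pi.sub_apply, lp.coeFn_smul, lp.coeFn_smul, Pi.smul_apply, Pi.smul_apply,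
      delta_apply, delta_apply, if_pos rfl, smul_eq_mul, smul_eq_mul, mul_one]
  rw [h2] at h1
  by_cases hxy : x = y
  · refine ⟨hxy, ?_⟩
    rw [if_pos hxy, mul_one] at h1
    have h3 : dist a b = ‖(a : ℂ) - (b : ℂ)‖ := by
      rw [← dist_eq_norm]
      rfl
    rw [h3]
    exact h1
  · exfalso
    rw [if_neg hxy, mul_zero, sub_zero, Circle.norm_coe] at h1
    linarith

variable {Γ : Type} [Group Γ] {v : Γ →* (L2 Λ ≃ₗᵢ[ℂ] L2 Λ)}

theorem mul_close (hv : ∀ g, InVN (v g)) {g h : Γ} {x y : Λ} {a b : Circle} {r : ℝ}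
    (hg : ‖v g (delta 1) - (a : ℂ) • delta x‖ ≤ r) (hh : ‖v h (delta 1) - (b : ℂ) • delta y‖ ≤ r) :
    ‖v (g * h) (delta 1) - ((a * b : Circle) : ℂ) • delta (x * y)‖ ≤ 2 * r := by
  have h1 : v (g * h) (delta 1) - ((a * b : Circle) : ℂ) • delta (x * y) =
      v g (v h (delta 1) - (b : ℂ) • delta y) +
        (b : ℂ) • rho y⁻¹ (v g (delta 1) - (a : ℂ) • delta x) := by
    have h2 : v (g * h) (delta 1) = v g (v h (delta 1)) := by
      rw [map_mul]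
      rfl
    have h3 : (delta y : L2 Λ) = rho y⁻¹ (delta 1) := by
      rw [rho_delta, inv_inv, one_mul]
    rw [h2, map_sub, map_sub, map_smul, map_smul, rho_delta, inv_inv, h3, hv g, smul_sub, smul_smul,
      Circle.coe_mul, mul_comm (a : ℂ)]
    abel
  rw [h1]
  refine (norm_add_le _ _).trans ?_
  rw [LinearIsometryEquiv.norm_map, norm_smul, Circle.norm_coe, one_mul,
    LinearIsometryEquiv.norm_map]
  linarith

end approx

/-- **Almost group-like unitaries are intertwined with group-like ones.** -/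
theorem exists_intertwiner {Γ : Type} [Group Γ] [Group.IsFinitelyPresented Γ]
    (hT : PropertyT Γ) :
    ∃ (B : Finset Γ) (ε : ℝ), 0 < ε ∧ ∀ (Λ : Type) [Group Λ] (v : Γ →* (L2 Λ ≃ₗᵢ[ℂ] L2 Λ)),
      (∀ g, InVN (v g)) → (∀ g ∈ B, ∃ h : Λ, 1 - ε < ‖v g (delta 1) h‖) →
      ∃ (π : Γ →* Λ) (χ : Γ →* Circle) (η : L2 Λ), η ≠ 0 ∧
        ∀ g, v g (rho (π g) η) = (χ g : ℂ) • η := by
  classical
  obtain ⟨S, κ, hκ, hS⟩ := hT
  obtain ⟨B, hSB, hB⟩ := partial_hom Γ S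
  obtain ⟨ε₁, hε₁, hch⟩ := approx_char hSB hB (δ := κ / 2) (by positivity)
  obtain ⟨r, hr0, hr1, hr2, hr3⟩ : ∃ r : ℝ, 0 < r ∧ r < κ / 2 ∧ 3 * r < 1 ∧ 3 * r < ε₁ := by
    refine ⟨min (κ / 4) (min (1 / 4) (ε₁ / 4)), by positivity, ?_, ?_, ?_⟩
    · have := min_le_left (κ / 4) (min (1 / 4) (ε₁ / 4))
      linarith
    · have := (min_le_right (κ / 4) (min (1 / 4) (ε₁ / 4))).trans (min_le_left _ _)
      linarith
    · have := (min_le_right (κ / 4) (min (1 / 4) (ε₁ / 4))).trans (min_le_right _ _)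
      linarith
  have hε2 : min (1 / 2) (r ^ 2 / 2) ≤ r ^ 2 / 2 := min_le_right _ _
  have hε1 : min (1 / 2) (r ^ 2 / 2) < 1 := lt_of_le_of_lt (min_le_left _ _) (by norm_num)
  refine ⟨B, min (1 / 2) (r ^ 2 / 2), by positivity, ?_⟩
  intro Λ _ v hv hB'
  have hnorm : ∀ g, ‖v g (delta 1)‖ = 1 := fun g => by
    rw [LinearIsometryEquiv.norm_map, norm_delta]
  have hex : ∀ g : Γ, ∃ (h : Λ) (c : Circle), g ∈ B → ‖v g (delta 1) - (c : ℂ) • delta h‖ ≤ r := by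
    intro g
    by_cases hg : g ∈ B
    · obtain ⟨h, hh⟩ := hB' g hg
      obtain ⟨c, hc⟩ := near_delta (hnorm g) hε1 hh
      refine ⟨h, c, fun _ => ?_⟩
      refine abs_le_of_sq_le_sq' ?_ hr0.le |>.2
      linarith
    · exact ⟨1, 1, fun h => absurd h hg⟩
  choose π₀ c₀ h₀ using hex
  have hmul : ∀ g ∈ B, ∀ h ∈ B, g * h ∈ B →
      π₀ (g * h) = π₀ g * π₀ h ∧ dist (c₀ (g * h)) (c₀ g * c₀ h) ≤ 3 * r := by
    intro g hg h hh hgh
    refine delta_close hr2 ?_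
    have h1 := mul_close hv (h₀ g hg) (h₀ h hh)
    have h2 := h₀ _ hgh
    have h3 : (c₀ (g * h) : ℂ) • (delta (π₀ (g * h)) : L2 Λ) -
        ((c₀ g * c₀ h : Circle) : ℂ) • delta (π₀ g * π₀ h) =
        (v (g * h) (delta 1) - ((c₀ g * c₀ h : Circle) : ℂ) • delta (π₀ g * π₀ h)) -
        (v (g * h) (delta 1) - (c₀ (g * h) : ℂ) • delta (π₀ (g * h))) := by abel
    rw [h3]
    refine (norm_sub_le _ _).trans ?_
    linarith
  obtain ⟨π, hπ⟩ := hB Λ π₀ fun g hg h hh hgh => (hmul g hg h hh hgh).1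
  obtain ⟨χ, hχ⟩ := hch c₀ fun g hg h hh hgh => lt_of_le_of_lt (hmul g hg h hh hgh).2 hr3
  obtain ⟨ρ, hρ⟩ : ∃ ρ : Γ → L2 Λ → L2 Λ, ∀ g ξ, ρ g ξ = ((χ g)⁻¹ : ℂ) • v g (rho (π g) ξ) :=
    ⟨fun g ξ => ((χ g)⁻¹ : ℂ) • v g (rho (π g) ξ), fun _ _ => rfl⟩
  have hχ0 : ∀ g, (χ g : ℂ) ≠ 0 := fun g => Circle.coe_ne_zero _
  have hχn : ∀ g, ‖((χ g)⁻¹ : ℂ)‖ = 1 := fun g => by rw [norm_inv, Circle.norm_coe, inv_one]
  have hrep : IsUnitaryRep ρ := by
    refine ⟨?_, ?_, ?_, ?_, ?_⟩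
    · intro g x y
      rw [hρ, hρ, hρ, map_add, map_add, smul_add]
    · intro g a x
      rw [hρ, hρ, map_smul, map_smul, smul_comm]
    · intro g x
      rw [hρ, norm_smul, hχn, one_mul, LinearIsometryEquiv.norm_map, LinearIsometryEquiv.norm_map]
    · intro x
      rw [hρ, map_one, map_one, map_one, rho_one, Circle.coe_one, inv_one, one_smul]
      rfl
    · intro g h x
      have h1 : ∀ y, v (g * h) y = v g (v h y) := by
        intro y
        rw [map_mul]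
        rfl
      have h2 : ((χ (g * h) : ℂ))⁻¹ = (χ g : ℂ)⁻¹ * (χ h : ℂ)⁻¹ := by
        rw [map_mul χ, Circle.coe_mul, mul_inv]
      rw [hρ, hρ, hρ, map_smul, map_smul, smul_smul, h2, map_mul π, rho_mul, h1, hv h]
  have hS' : ∀ s ∈ S, ‖ρ s (delta 1) - delta 1‖ < κ := by
    intro s hs
    have h1 : ρ s (delta 1) - delta 1 = ((χ s)⁻¹ : ℂ) •
        (rho (π s) (v s (delta 1) - (c₀ s : ℂ) • delta (π₀ s)) +
          ((c₀ s : ℂ) - (χ s : ℂ)) • delta 1) := by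
      rw [hρ, hv s, map_sub, map_smul, rho_delta, hπ s hs, mul_inv_cancel, smul_add, smul_sub,
        sub_smul, smul_sub, smul_smul (χ s : ℂ)⁻¹ (χ s : ℂ), inv_mul_cancel₀ (hχ0 s), one_smul]
      abel
    rw [h1, norm_smul, hχn, one_mul]
    refine lt_of_le_of_lt (norm_add_le _ _) ?_
    rw [LinearIsometryEquiv.norm_map, norm_smul, norm_delta, mul_one]
    have h2 := h₀ s (hSB hs)
    have h3 : ‖(c₀ s : ℂ) - (χ s : ℂ)‖ < κ / 2 := by
      have h4 := hχ s hs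
      have h5 : dist (c₀ s) (χ s) = ‖(c₀ s : ℂ) - (χ s : ℂ)‖ := by
        rw [← dist_eq_norm]
        rfl
      rwa [h5] at h4
    linarith
  obtain ⟨w, hw, hinv⟩ := hS (L2 Λ) ρ hrep ⟨delta 1, norm_delta 1, hS'⟩
  refine ⟨π, χ, w, hw, fun g => ?_⟩
  have h1 := hinv g
  rw [hρ, inv_smul_eq_iff₀ (hχ0 g)] at h1
  exact h1

end Pool.Agent.K4H1.VN
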