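import Mathlib
import Pool.Agent.Y276.Rig.Stm

/-!
# Group von Neumann algebras on `ℓ²(G)`: definitions
-/

set_option autoImplicit false

namespace Pool.Agent.K4H1.VN

/-- the Hilbert space `ℓ²(G)` -/
abbrev L2 (G : Type) : Type := lp (fun _ : G => ℂ) 2

theorem memlp_comp {G : Type} (e : G ≃ G) (f : L2 G) :
    Memℓp (fun x => (f : G → ℂ) (e x)) 2 := by
  rw [memℓp_gen_iff (by norm_num)]
  have h1 := (memℓp_gen_iff (p := 2) (by norm_num)).1 f.2
  exact (e.summable_iff (f := fun x => ‖(f : G → ℂ) x‖ ^ (2 : ENNReal).toReal)).2 h1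

/-- composition with a permutation of `G` -/
noncomputable def reix {G : Type} (e : G ≃ G) : L2 G ≃ₗᵢ[ℂ] L2 G where
  toFun f := ⟨fun x => (f : G → ℂ) (e x), memlp_comp e f⟩
  invFun f := ⟨fun x => (f : G → ℂ) (e.symm x), memlp_comp e.symm f⟩
  map_add' f g := by
    apply lp.ext
    rfl
  map_smul' c f := by
    apply lp.ext
    rfl
  left_inv f := by
    apply lp.ext
    funext x
    show (f : G → ℂ) (e (e.symm x)) = f x
    rw [e.apply_symm_apply]
  right_inv f := by
    apply lp.ext
    funext x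
    show (f : G → ℂ) (e.symm (e x)) = f x
    rw [e.symm_apply_apply]
  norm_map' f := by
    show ‖(⟨fun x => (f : G → ℂ) (e x), memlp_comp e f⟩ : L2 G)‖ = ‖f‖
    rw [lp.norm_eq_tsum_rpow (by norm_num), lp.norm_eq_tsum_rpow (by norm_num)]
    congr 1
    exact e.tsum_eq (fun x => ‖(f : G → ℂ) x‖ ^ (2 : ENNReal).toReal)

theorem reix_apply {G : Type} (e : G ≃ G) (f : L2 G) (x : G) : reix e f x = f (e x) := rfl

variable {G : Type} [Group G]

/-- the right translation `(rho g f) x = f (x g)` -/
noncomputable def rho (g : G) : L2 G ≃ₗᵢ[ℂ] L2 G := reix (Equiv.mulRight g)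

/-- the left translation `(lam g f) x = f (g⁻¹ x)`, the left regular representation -/
noncomputable def lam (g : G) : L2 G ≃ₗᵢ[ℂ] L2 G := reix (Equiv.mulLeft g⁻¹)

open Classical in
/-- the function `δ_g` -/
noncomputable def delta (g : G) : L2 G := lp.single 2 g (1 : ℂ)

/-- `T` belongs to the group von Neumann algebra `L(G)`, the commutant of the right translations -/
def InVN (T : L2 G → L2 G) : Prop := ∀ g f, T (rho g f) = rho g (T f)

end Pool.Agent.K4H1.VN
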