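import Pool.Agent.K4H1.VN.Ic

/-!
# Isometries in the commutant are unitary; the isomorphism case
-/

set_option autoImplicit false

namespace Pool.Agent.K4H1.VN

open scoped ComplexConjugate InnerProductSpace
open Pool.Agent.Y276.Rig Filter Topology

variable {Γ Λ : Type} [Group Γ] [Group Λ]

theorem adjoint_InVN' {S : L2 Γ →L[ℂ] L2 Γ} (hS : InVN' S) : InVN' (ContinuousLinearMap.adjoint S) := by
  intro g f
  refine ext_inner_left ℂ fun x => ?_
  have h1 : ∀ (y z : L2 Γ), ⟪y, lam g z⟫_ℂ = ⟪lam g⁻¹ y, z⟫_ℂ := by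
    intro y z
    have h2 : y = lam g (lam g⁻¹ y) := by rw [← lam_mul, mul_inv_cancel, lam_one]
    conv_lhs => rw [h2]
    rw [LinearIsometryEquiv.inner_map_map]
  rw [ContinuousLinearMap.adjoint_inner_right, h1, h1, ContinuousLinearMap.adjoint_inner_right, hS]

/-- **Isometries of the commutant are unitary.** -/
theorem isometry_surj {S : L2 Γ →L[ℂ] L2 Γ} (hS : InVN' S) (hiso : ∀ x, ‖S x‖ = ‖x‖) (y : L2 Γ) :
    S (ContinuousLinearMap.adjoint S y) = y := by
  set A := ContinuousLinearMap.adjoint S with hA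
  have hA' : InVN' A := adjoint_InVN' hS
  have h1 : ∀ x, A (S x) = x := by
    intro x
    have h2 := (ContinuousLinearMap.norm_map_iff_adjoint_comp_self S).1 hiso
    exact DFunLike.congr_fun h2 x
  have h2 : S (A (delta 1)) 1 = 1 := by
    classical
    rw [trace_comm' hS hA', h1, delta_apply, if_pos rfl]
  have h3 : ‖A (delta 1)‖ ^ 2 = 1 := by
    have h4 : ⟪A (delta 1), A (delta 1)⟫_ℂ = 1 := by
      rw [hA, ContinuousLinearMap.adjoint_inner_left, inner_delta, ← hA, h2]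
    rw [inner_self_eq_norm_sq_to_K] at h4
    refine Complex.ofReal_injective ?_
    rw [Complex.ofReal_pow, Complex.ofReal_one]
    exact h4
  have h5 : S (A (delta 1)) = delta 1 := by
    rw [← sub_eq_zero, ← norm_eq_zero, ← sq_eq_zero_iff, norm_sub_sq (𝕜 := ℂ), hiso, h3,
      norm_delta, ← inner_conj_symm, inner_delta, h2]
    simp
    norm_num
  have h6 : ∀ a, S.comp A (delta a) = ContinuousLinearMap.id ℂ (L2 Γ) (delta a) := by
    intro a
    have h7 : (delta a : L2 Γ) = lam a (delta 1) := by rw [lam_delta, mul_one]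
    show S (A (delta a)) = delta a
    rw [h7, hA', hS, h5]
  exact ext_delta h6 y

/-- conjugation by `U` -/
noncomputable def conjU (U : L2 Γ ≃ₗᵢ[ℂ] L2 Λ) (T : L2 Γ →L[ℂ] L2 Γ) : L2 Λ →L[ℂ] L2 Λ :=
  (U.toContinuousLinearEquiv : L2 Γ →L[ℂ] L2 Λ).comp
    (T.comp (U.symm.toContinuousLinearEquiv : L2 Λ →L[ℂ] L2 Γ))

theorem conjU_apply (U : L2 Γ ≃ₗᵢ[ℂ] L2 Λ) (T : L2 Γ →L[ℂ] L2 Γ) (f : L2 Λ) :
    conjU U T f = U (T (U.symm f)) := rfl

/-- a unitary as a continuous linear map -/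
noncomputable def clm (T : L2 Γ ≃ₗᵢ[ℂ] L2 Λ) : L2 Γ →L[ℂ] L2 Λ :=
  (T.toContinuousLinearEquiv : L2 Γ →L[ℂ] L2 Λ)

theorem clm_apply (T : L2 Γ ≃ₗᵢ[ℂ] L2 Λ) (f : L2 Γ) : clm T f = T f := rfl

section main

variable {v : Γ →* (L2 Λ ≃ₗᵢ[ℂ] L2 Λ)} {U : L2 Γ ≃ₗᵢ[ℂ] L2 Λ}

theorem U_symm (hU : ∀ g f, v g (U f) = U (lam g f)) (g : Γ) (x : L2 Λ) :
    U.symm (v g x) = lam g (U.symm x) := by
  have h1 : x = U (U.symm x) := (U.apply_symm_apply x).symm
  conv_lhs => rw [h1]
  rw [hU, U.symm_apply_apply]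

theorem c0_iso (hU : ∀ g f, v g (U f) = U (lam g f)) (ξ ζ : L2 Λ) :
    Tendsto (fun g => ⟪ζ, v g ξ⟫_ℂ) cofinite (𝓝 0) := by
  have h1 : ∀ a : Γ, Orthonormal ℂ fun g : Γ => lam g (delta a : L2 Γ) := by
    intro a
    refine ⟨fun g => by rw [LinearIsometryEquiv.norm_map, norm_delta], fun g k hgk => ?_⟩
    classical
    show ⟪lam g (delta a : L2 Γ), lam k (delta a : L2 Γ)⟫_ℂ = 0
    rw [lam_delta, lam_delta, inner_delta, delta_apply, if_neg]
    exact fun h => hgk (mul_right_cancel h)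
  refine (c0 (v := fun g : Γ => (lam g : L2 Γ ≃ₗᵢ[ℂ] L2 Γ)) h1 (U.symm ξ) (U.symm ζ)).congr
    fun g => ?_
  rw [← U_symm hU, LinearIsometryEquiv.inner_map_map]

/-- the isometry with `δ_g ↦ v_g ζ` is unitary -/
theorem exists_unitary (hU : ∀ g f, v g (U f) = U (lam g f))
    (hiso : ∀ T : L2 Γ →L[ℂ] L2 Γ, InVN T ↔ InVN (conjU U T)) {ζ : L2 Λ} (hζ : ‖ζ‖ = 1)
    (h0 : ∀ g, g ≠ 1 → ⟪ζ, v g ζ⟫_ℂ = 0) :
    ∃ T : L2 Λ ≃ₗᵢ[ℂ] L2 Λ, (∀ g, T (U (delta g)) = v g ζ) ∧ ∀ h x, T (lam h x) = lam h (T x) := by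
  classical
  have hu : Orthonormal ℂ fun g => v g ζ := orthonormal_of hζ h0
  let S₀ : L2 Γ →ₗᵢ[ℂ] L2 Λ := hu.orthogonalFamily.linearIsometry
  have hS₀ : ∀ g, S₀ (delta g) = v g ζ := by
    intro g
    have h1 := hu.orthogonalFamily.linearIsometry_apply_single (i := g) (1 : ℂ)
    rw [LinearIsometry.toSpanSingleton_apply, one_smul] at h1
    rw [← h1, delta]
  let S : L2 Γ →L[ℂ] L2 Γ := (clm U.symm).comp S₀.toContinuousLinearMap
  have hSap : ∀ f, S f = U.symm (S₀ f) := fun f => rfl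
  have hS' : InVN' S := by
    intro h f
    have h1 := ext_delta (T := S.comp (clm (lam h))) (S := (clm (lam h)).comp S) (fun a => ?_) f
    · exact h1
    · show S (lam h (delta a)) = lam h (S (delta a))
      rw [lam_delta, hSap, hSap, hS₀, hS₀, v_mul, U_symm hU]
  have hSn : ∀ x, ‖S x‖ = ‖x‖ := by
    intro x
    rw [hSap, LinearIsometryEquiv.norm_map, LinearIsometry.norm_map]
  have hsurj : Function.Surjective (S₀.comp U.symm.toLinearIsometry) := by
    intro y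
    refine ⟨U (ContinuousLinearMap.adjoint S (U.symm y)), ?_⟩
    show S₀ (U.symm (U _)) = y
    rw [U.symm_apply_apply]
    apply U.symm.injective
    rw [← hSap, isometry_surj hS' hSn]
  let T : L2 Λ ≃ₗᵢ[ℂ] L2 Λ := LinearIsometryEquiv.ofSurjective (S₀.comp U.symm.toLinearIsometry) hsurj
  have hT : ∀ x, T x = S₀ (U.symm x) := fun x => rfl
  refine ⟨T, fun g => by rw [hT, U.symm_apply_apply, hS₀], fun h x => ?_⟩
  -- commutes with the left translations
  let X : L2 Γ →L[ℂ] L2 Γ := conjU U.symm (clm (lam h))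
  have hX : ∀ f, X f = U.symm (lam h (U f)) := fun f => rfl
  have hXin : InVN X := by
    rw [hiso]
    intro k f
    show U (X (U.symm (rho k f))) = rho k (U (X (U.symm f)))
    rw [hX, hX, U.apply_symm_apply, U.apply_symm_apply,
      U.apply_symm_apply, U.apply_symm_apply, rho_lam]
  have h1 := commutation hXin hS' (U.symm x)
  rw [hX, hX, hSap, hSap, U.apply_symm_apply, U.apply_symm_apply] at h1
  have h2 := U.symm.injective h1
  rw [hT, hT]
  exact h2.symm

theorem trace_zero (hicc : IsIcc Γ) (hv : ∀ g, InVN (v g)) (hU : ∀ g f, v g (U f) = U (lam g f))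
    {g : Γ} (hg : g ≠ 1) : v g (delta 1) 1 = 0 := by
  have h1 := icc_zero hicc (F := fun g => v g (delta 1) 1) (fun g k => ?_) ?_ hg
  · exact h1
  · show v (k * g * k⁻¹) (delta 1) 1 = v g (delta 1) 1
    have h2 : InVN (clm (v k)) := hv k
    have h3 : InVN (clm (v (g * k⁻¹))) := hv _
    have h4 := trace_comm h2 h3
    rw [clm_apply, clm_apply, clm_apply, clm_apply, ← v_mul, ← v_mul, ← mul_assoc,
      inv_mul_cancel_right] at h4
    exact h4
  · refine (c0_iso hU (delta 1) (delta 1)).congr fun g => ?_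
    rw [inner_delta]

/-- **The isomorphism case.** -/
theorem iso_case (hicc : IsIcc Γ) (hv : ∀ g, InVN (v g)) (hU : ∀ g f, v g (U f) = U (lam g f))
    (hiso : ∀ T : L2 Γ →L[ℂ] L2 Γ, InVN T ↔ InVN (conjU U T)) {π : Γ →* Λ} {χ : Γ →* Circle}
    {η : L2 Λ} (hη1 : ‖η‖ = 1) (hη : ∀ g, v g (rho (π g) η) = (χ g : ℂ) • η) :
    Function.Surjective π ∧ ∃ w : L2 Λ ≃ₗᵢ[ℂ] L2 Λ, InVN w ∧
      ∀ g f, v g (w f) = (χ g : ℂ) • w (lam (π g) f) := by
  classical
  obtain ⟨T₀, hT₀, hT₀'⟩ := exists_unitary hU hiso (norm_delta (1 : Λ)) (fun g hg => by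
    rw [inner_delta]
    exact trace_zero hicc hv hU hg)
  obtain ⟨T₁, hT₁, hT₁'⟩ := exists_unitary hU hiso hη1 (fun g hg =>
    inner_eta hicc hv (c0_iso hU) hη hg)
  have hT₀1 := hT₀ 1
  have hT₁1 := hT₁ 1
  rw [v_one] at hT₀1 hT₁1
  let T : L2 Λ ≃ₗᵢ[ℂ] L2 Λ := T₀.symm.trans T₁
  have hTap : ∀ x, T x = T₁ (T₀.symm x) := fun x => rfl
  have hTd : T (delta 1) = η := by
    rw [hTap, ← hT₀1, T₀.symm_apply_apply, hT₁1]
  have hsymm : ∀ (A : L2 Λ ≃ₗᵢ[ℂ] L2 Λ), (∀ h x, A (lam h x) = lam h (A x)) →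
      ∀ h x, A.symm (lam h x) = lam h (A.symm x) := by
    intro A hA h x
    apply A.injective
    rw [A.apply_symm_apply, hA, A.apply_symm_apply]
  have hT' : ∀ h x, T (lam h x) = lam h (T x) := by
    intro h x
    rw [hTap, hTap, hsymm T₀ hT₀', hT₁']
  have hort : ∀ k : Λ, k ≠ 1 → ⟪η, rho k η⟫_ℂ = 0 := by
    intro k hk
    have h1 : ⟪η, rho k η⟫_ℂ = ⟪(delta 1 : L2 Λ), T.symm (rho k (T (delta 1)))⟫_ℂ := by
      rw [← hTd, ← LinearIsometryEquiv.inner_map_map T (delta 1), T.apply_symm_apply]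
    rw [h1, inner_delta]
    have h2 : InVN' ((clm T.symm).comp (clm (rho k))) := by
      intro h x
      show T.symm (rho k (lam h x)) = lam h (T.symm (rho k x))
      rw [rho_lam, hsymm T hT']
    have h3 : InVN' (clm T) := hT'
    have h4 := trace_comm' h2 h3
    have h5 : ((clm T.symm).comp (clm (rho k))) ((clm T) (delta 1)) =
        T.symm (rho k (T (delta 1))) := rfl
    have h6 : (clm T) (((clm T.symm).comp (clm (rho k))) (delta 1)) =
        T (T.symm (rho k (delta 1))) := rfl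
    rw [h5, h6, T.apply_symm_apply, rho_delta, delta_apply, one_mul, if_neg] at h4
    · exact h4
    · exact fun h => hk (inv_eq_one.1 h.symm)
  have hb : Orthonormal ℂ fun k : Λ => rho k⁻¹ η := by
    refine ⟨fun k => by rw [LinearIsometryEquiv.norm_map, hη1], fun k l hkl => ?_⟩
    show ⟪rho k⁻¹ η, rho l⁻¹ η⟫_ℂ = 0
    have h1 : rho l⁻¹ η = rho k⁻¹ (rho (k * l⁻¹) η) := by
      rw [← rho_mul, inv_mul_cancel_left]
    rw [h1, LinearIsometryEquiv.inner_map_map]
    exact hort _ fun h => hkl (mul_inv_eq_one.1 h)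
  have hvη : ∀ g, v g η = (χ g : ℂ) • rho (π g)⁻¹ η := by
    intro g
    have h1 := hη g
    rw [hv g] at h1
    rw [← map_smul, ← h1, rho_inv_rho]
  have htot : ∀ y : L2 Λ, (∀ g, ⟪rho (π g)⁻¹ η, y⟫_ℂ = 0) → y = 0 := by
    intro y hy
    have h1 : U.symm (T₁.symm y) = 0 := by
      apply L2ext
      intro g
      rw [← inner_delta, ← LinearIsometryEquiv.inner_map_map U, U.apply_symm_apply,
        ← LinearIsometryEquiv.inner_map_map T₁, T₁.apply_symm_apply, hT₁, hvη, inner_smul_left, hy,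
        mul_zero]
      rfl
    have h2 := congrArg T₁ (congrArg U h1)
    rw [U.apply_symm_apply, T₁.apply_symm_apply, map_zero, map_zero] at h2
    exact h2
  have hsurj : Function.Surjective π := by
    intro k
    by_contra hk
    push Not at hk
    have h1 : rho k⁻¹ η = 0 := by
      refine htot _ fun g => ?_
      exact hb.2 (hk g)
    have h2 : ‖rho k⁻¹ η‖ = 1 := hb.1 k
    rw [h1, norm_zero] at h2
    exact zero_ne_one h2
  refine ⟨hsurj, ?_⟩
  have hspan : (Submodule.span ℂ (Set.range fun k : Λ => rho k⁻¹ η))ᗮ = ⊥ := by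
    rw [eq_bot_iff]
    intro y hy
    rw [Submodule.mem_bot]
    refine htot y fun g => ?_
    exact (Submodule.mem_orthogonal _ _).1 hy _ (Submodule.subset_span ⟨π g, rfl⟩)
  let b : HilbertBasis Λ ℂ (L2 Λ) := HilbertBasis.mkOfOrthogonalEqBot hb hspan
  have hbk : ∀ k, b k = rho k⁻¹ η := fun k =>
    congrFun (HilbertBasis.coe_mkOfOrthogonalEqBot hb hspan) k
  let w : L2 Λ ≃ₗᵢ[ℂ] L2 Λ := b.repr.symm
  have hwk : ∀ k, w (delta k) = rho k⁻¹ η := by
    intro k
    rw [← hbk, ← b.repr_symm_single]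
    show b.repr.symm (delta k) = b.repr.symm _
    rw [delta]
  refine ⟨w, fun l f => ?_, fun g f => ?_⟩
  · have h1 := ext_delta (T := (clm w).comp (clm (rho l))) (S := (clm (rho l)).comp (clm w))
      (fun a => ?_) f
    · exact h1
    · show w (rho l (delta a)) = rho l (w (delta a))
      rw [rho_delta, hwk, hwk, ← rho_mul, mul_inv_rev, inv_inv]
  · have h1 := ext_delta (T := (clm (v g)).comp (clm w))
      (S := (χ g : ℂ) • (clm w).comp (clm (lam (π g)))) (fun a => ?_) f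
    · exact h1
    · show v g (w (delta a)) = (χ g : ℂ) • w (lam (π g) (delta a))
      rw [lam_delta, hwk, hwk, hv g, hvη, map_smul, ← rho_mul, mul_inv_rev]

end main

end Pool.Agent.K4H1.VN
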