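import Mathlib

/-!
# Partial homomorphisms on finite subsets of finitely presented groups
-/

set_option autoImplicit false

namespace Pool.Agent.K4H1.VN


theorem mk_take_succ {n : ℕ} (l : List (Fin n × Bool)) (k : ℕ) (hk : k < l.length) :
    FreeGroup.mk (l.take (k + 1)) = FreeGroup.mk (l.take k) * FreeGroup.mk [l[k]] := by
  rw [FreeGroup.mul_mk, List.take_succ_eq_append_getElem hk]

/-- **Finite presentations and partial homomorphisms.** -/
theorem partial_hom (Γ : Type) [Group Γ] [hfp : Group.IsFinitelyPresented Γ] (S : Finset Γ) :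
    ∃ B : Finset Γ, S ⊆ B ∧ ∀ (Λ : Type) [Group Λ] (π : Γ → Λ),
      (∀ g ∈ B, ∀ h ∈ B, g * h ∈ B → π (g * h) = π g * π h) → ∃ φ : Γ →* Λ, ∀ g ∈ S, φ g = π g := by
  classical
  obtain ⟨n, f, hf, R, hRf, hR⟩ := hfp.out
  choose w hw using hf
  -- the words
  let W : Finset (FreeGroup (Fin n)) := hRf.toFinset ∪ S.image w
  let B : Finset Γ := W.biUnion (fun u => (Finset.range (u.toWord.length + 1)).image
      fun k => f (FreeGroup.mk (u.toWord.take k))) ∪
    (Finset.univ.image fun i : Fin n => f (FreeGroup.of i)) ∪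
    (Finset.univ.image fun i : Fin n => (f (FreeGroup.of i))⁻¹) ∪ {1}
  have h1B : (1 : Γ) ∈ B := by simp [B]
  have hgB : ∀ i, f (FreeGroup.of i) ∈ B := fun i => by simp [B]
  have hgB' : ∀ i, (f (FreeGroup.of i))⁻¹ ∈ B := fun i => by
    simp only [B, Finset.mem_union, Finset.mem_image]
    exact Or.inl (Or.inr ⟨i, Finset.mem_univ _, rfl⟩)
  have hpB : ∀ u ∈ W, ∀ k, k ≤ u.toWord.length → f (FreeGroup.mk (u.toWord.take k)) ∈ B := by
    intro u hu k hk
    simp only [B, Finset.mem_union, Finset.mem_biUnion, Finset.mem_image, Finset.mem_range]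
    exact Or.inl (Or.inl (Or.inl ⟨u, hu, k, by omega, rfl⟩))
  have hfull : ∀ u : FreeGroup (Fin n), FreeGroup.mk (u.toWord.take u.toWord.length) = u := by
    intro u
    rw [List.take_length, FreeGroup.mk_toWord]
  refine ⟨B, ?_, ?_⟩
  · intro s hs
    have h1 := hpB (w s) (Finset.mem_union_right _ (Finset.mem_image_of_mem _ hs)) _ le_rfl
    rwa [hfull, hw] at h1
  intro Λ _ π hπ
  have hπ1 : π 1 = 1 := by
    have h1 := hπ 1 h1B 1 h1B (by rwa [mul_one])
    rw [mul_one] at h1
    exact left_eq_mul.1 h1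
  have hπi : ∀ i, π (f (FreeGroup.of i))⁻¹ = (π (f (FreeGroup.of i)))⁻¹ := by
    intro i
    have h1 := hπ _ (hgB i) _ (hgB' i) (by rwa [mul_inv_cancel])
    rw [mul_inv_cancel, hπ1] at h1
    exact (inv_eq_of_mul_eq_one_right h1.symm).symm
  let ψ : FreeGroup (Fin n) →* Λ := FreeGroup.lift fun i => π (f (FreeGroup.of i))
  have hletter : ∀ a : Fin n × Bool, ψ (FreeGroup.mk [a]) = π (f (FreeGroup.mk [a])) ∧
      f (FreeGroup.mk [a]) ∈ B := by
    rintro ⟨i, b⟩
    cases b with
    | true =>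
      have h1 : FreeGroup.mk [(i, true)] = FreeGroup.of i := rfl
      rw [h1]
      exact ⟨FreeGroup.lift_apply_of, hgB i⟩
    | false =>
      have h1 : FreeGroup.mk [(i, false)] = (FreeGroup.of i)⁻¹ := rfl
      rw [h1, map_inv, map_inv, hπi]
      refine ⟨?_, hgB' i⟩
      congr 1
      exact FreeGroup.lift_apply_of
  have hword : ∀ u ∈ W, ∀ k, k ≤ u.toWord.length →
      ψ (FreeGroup.mk (u.toWord.take k)) = π (f (FreeGroup.mk (u.toWord.take k))) := by
    intro u hu k
    induction k with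
    | zero =>
      intro _
      have h1 : FreeGroup.mk (u.toWord.take 0) = 1 := by
        rw [List.take_zero]
        rfl
      rw [h1, map_one, map_one, hπ1]
    | succ k ih =>
      intro hk
      have h1 := ih (by omega)
      have h2 := hpB u hu k (by omega)
      have h3 := hpB u hu (k + 1) hk
      have h4 := hletter (u.toWord[k]'(by omega))
      rw [mk_take_succ _ _ (by omega)] at h3 ⊢
      rw [map_mul, map_mul, h1, h4.1]
      rw [map_mul] at h3
      exact (hπ _ h2 _ h4.2 h3).symm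
  have hker : f.ker ≤ ψ.ker := by
    rw [← hR]
    apply Subgroup.normalClosure_le_normal
    intro r hr
    have h1 := hword r (Finset.mem_union_left _ (hRf.mem_toFinset.2 hr)) _ le_rfl
    rw [hfull] at h1
    have h2 : r ∈ f.ker := by
      rw [← hR]
      exact Subgroup.subset_normalClosure hr
    rw [MonoidHom.mem_ker] at h2
    rw [h2, hπ1] at h1
    exact h1
  have hinv : Function.RightInverse w f := hw
  let φ : Γ →* Λ := f.liftOfRightInverse w hinv ⟨ψ, hker⟩
  refine ⟨φ, fun s hs => ?_⟩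
  have h1 : φ (f (w s)) = ψ (w s) := f.liftOfRightInverse_comp_apply w hinv ⟨ψ, hker⟩ (w s)
  rw [hw] at h1
  rw [h1]
  have h2 := hword (w s) (Finset.mem_union_right _ (Finset.mem_image_of_mem _ hs)) _ le_rfl
  rwa [hfull, hw] at h2

end Pool.Agent.K4H1.VN
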