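import Pool.Agent.K4H1.VN.Sh

/-!
# Coefficients vanishing at infinity and infinite conjugacy classes
-/

set_option autoImplicit false

namespace Pool.Agent.K4H1.VN

open scoped ComplexConjugate InnerProductSpace
open Pool.Agent.Y276.Rig Filter Topology

variable {Γ Λ : Type} [Group Γ] [Group Λ]

theorem icc_zero (hicc : IsIcc Γ) {F : Γ → ℂ} (hF : ∀ g k, F (k * g * k⁻¹) = F g)
    (h0 : Tendsto F cofinite (𝓝 0)) {g : Γ} (hg : g ≠ 1) : F g = 0 := by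
  by_contra hne
  have h1 : ∀ᶠ y in cofinite, ‖F y‖ < ‖F g‖ := by
    have h2 := h0.norm
    rw [norm_zero] at h2
    exact h2.eventually_lt_const (norm_pos_iff.2 hne)
  rw [Filter.eventually_cofinite] at h1
  refine hicc g hg (h1.subset ?_)
  rintro y ⟨k, rfl⟩
  show ¬ ‖F (k * g * k⁻¹)‖ < ‖F g‖
  rw [hF]
  exact lt_irrefl _

theorem c0_of_orthonormal {u : Γ → L2 Λ} (hu : Orthonormal ℂ u) (ζ : L2 Λ) :
    Tendsto (fun g => ⟪ζ, u g⟫_ℂ) cofinite (𝓝 0) := by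
  have h1 := hu.inner_products_summable (x := ζ)
  have h2 := h1.tendsto_cofinite_zero
  rw [tendsto_zero_iff_norm_tendsto_zero]
  have h3 : Tendsto (fun g => √(‖⟪u g, ζ⟫_ℂ‖ ^ 2)) cofinite (𝓝 0) := by
    have := h2.sqrt
    rwa [Real.sqrt_zero] at this
  refine h3.congr fun g => ?_
  rw [Real.sqrt_sq (norm_nonneg _), norm_inner_symm]

/-- **Matrix coefficients vanish at infinity.** -/
theorem c0 {v : Γ → L2 Λ ≃ₗᵢ[ℂ] L2 Λ} (h : ∀ a, Orthonormal ℂ fun g => v g (delta a))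
    (ξ ζ : L2 Λ) : Tendsto (fun g => ⟪ζ, v g ξ⟫_ℂ) cofinite (𝓝 0) := by
  classical
  rw [Metric.tendsto_nhds]
  intro ε hε
  have hpos : 0 < ‖ζ‖ + 1 := by positivity
  have h1 := (Metric.tendsto_nhds.1 (hasSum_delta ξ)) (ε / (2 * (‖ζ‖ + 1))) (by positivity)
  obtain ⟨s, hs⟩ := h1.exists
  have h2 : Tendsto (fun g => ⟪ζ, v g (∑ x ∈ s, ξ x • (delta x : L2 Λ))⟫_ℂ) cofinite (𝓝 0) := by
    have h3 : ∀ g, ⟪ζ, v g (∑ x ∈ s, ξ x • (delta x : L2 Λ))⟫_ℂ =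
        ∑ x ∈ s, ξ x * ⟪ζ, v g (delta x)⟫_ℂ := by
      intro g
      rw [map_sum, inner_sum]
      refine Finset.sum_congr rfl fun x _ => ?_
      rw [map_smul, inner_smul_right]
    simp only [h3]
    rw [← Finset.sum_const_zero (s := s) (M := ℂ)]
    refine tendsto_finsetSum _ fun x _ => ?_
    have h4 := (c0_of_orthonormal (h x) ζ).const_mul (ξ x)
    rwa [mul_zero] at h4
  filter_upwards [(Metric.tendsto_nhds.1 h2) (ε / 2) (by positivity)] with g hg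
  rw [dist_zero_right] at hg ⊢
  have h5 : ⟪ζ, v g ξ⟫_ℂ = ⟪ζ, v g (∑ x ∈ s, ξ x • (delta x : L2 Λ))⟫_ℂ -
      ⟪ζ, v g (∑ x ∈ s, ξ x • (delta x : L2 Λ) - ξ)⟫_ℂ := by
    rw [map_sub, inner_sub_right]
    ring
  rw [h5]
  refine lt_of_le_of_lt (norm_sub_le _ _) ?_
  have h6 : ‖⟪ζ, v g (∑ x ∈ s, ξ x • (delta x : L2 Λ) - ξ)⟫_ℂ‖ ≤ ε / 2 := by
    refine (norm_inner_le_norm _ _).trans ?_
    rw [LinearIsometryEquiv.norm_map]
    rw [dist_eq_norm] at hs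
    calc ‖ζ‖ * ‖∑ x ∈ s, ξ x • (delta x : L2 Λ) - ξ‖
        ≤ (‖ζ‖ + 1) * (ε / (2 * (‖ζ‖ + 1))) := by gcongr; linarith
      _ = ε / 2 := by field_simp
  linarith

section hom

variable {v : Γ →* (L2 Λ ≃ₗᵢ[ℂ] L2 Λ)}

theorem v_mul (g h : Γ) (x : L2 Λ) : v (g * h) x = v g (v h x) := by
  rw [map_mul]
  rfl

theorem v_one (x : L2 Λ) : v 1 x = x := by
  rw [map_one]
  rfl

theorem inner_v (g h : Γ) (x y : L2 Λ) : ⟪v g x, v h y⟫_ℂ = ⟪x, v (g⁻¹ * h) y⟫_ℂ := by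
  have h1 : v h y = v g (v (g⁻¹ * h) y) := by
    rw [← v_mul, mul_inv_cancel_left]
  rw [h1, LinearIsometryEquiv.inner_map_map]

theorem orthonormal_of {ζ : L2 Λ} (hζ : ‖ζ‖ = 1) (h : ∀ g, g ≠ 1 → ⟪ζ, v g ζ⟫_ℂ = 0) :
    Orthonormal ℂ fun g => v g ζ := by
  refine ⟨fun g => by rw [LinearIsometryEquiv.norm_map, hζ], fun g k hgk => ?_⟩
  show ⟪v g ζ, v k ζ⟫_ℂ = 0
  rw [inner_v]
  refine h _ fun h1 => hgk ?_
  rw [inv_mul_eq_one] at h1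
  exact h1

theorem orthonormal_delta (hv : ∀ g, InVN (v g)) (h : ∀ g, g ≠ 1 → v g (delta 1) 1 = 0) (a : Λ) :
    Orthonormal ℂ fun g => v g (delta a) := by
  refine orthonormal_of (norm_delta a) fun g hg => ?_
  have h1 : (delta a : L2 Λ) = rho a⁻¹ (delta 1) := by
    rw [rho_delta, inv_inv, one_mul]
  rw [h1, hv g, LinearIsometryEquiv.inner_map_map, inner_delta]
  exact h g hg

/-- **An intertwining vector of an icc group.** -/
theorem inner_eta (hicc : IsIcc Γ) (hv : ∀ g, InVN (v g))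
    (hc0 : ∀ ξ ζ, Tendsto (fun g => ⟪ζ, v g ξ⟫_ℂ) cofinite (𝓝 0))
    {π : Γ →* Λ} {χ : Γ →* Circle} {η : L2 Λ} (hη : ∀ g, v g (rho (π g) η) = (χ g : ℂ) • η)
    {g : Γ} (hg : g ≠ 1) : ⟪η, v g η⟫_ℂ = 0 := by
  refine icc_zero hicc (F := fun g => ⟪η, v g η⟫_ℂ) (fun g k => ?_) (hc0 η η) hg
  show ⟪η, v (k * g * k⁻¹) η⟫_ℂ = ⟪η, v g η⟫_ℂ
  have h1 : v k⁻¹ η = ((χ k : ℂ))⁻¹ • rho (π k) η := by
    have h2 := hη k
    have h3 : v k⁻¹ (v k (rho (π k) η)) = rho (π k) η := by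
      rw [← v_mul, inv_mul_cancel, v_one]
    rw [h2, map_smul] at h3
    rw [← h3, smul_smul, inv_mul_cancel₀ (Circle.coe_ne_zero _), one_smul]
  have h4 : ⟪η, v (k * g * k⁻¹) η⟫_ℂ = ⟪v k⁻¹ η, v g (v k⁻¹ η)⟫_ℂ := by
    rw [← v_mul, inner_v, inv_inv, mul_assoc]
  rw [h4, h1, map_smul, inner_smul_left, inner_smul_right, hv g, LinearIsometryEquiv.inner_map_map,
    ← mul_assoc]
  have h5 : conj ((χ k : ℂ))⁻¹ * ((χ k : ℂ))⁻¹ = 1 := by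
    rw [← Complex.normSq_eq_conj_mul_self, Complex.normSq_eq_norm_sq, norm_inv, Circle.norm_coe]
    simp
  rw [h5, one_mul]

theorem injective_of (hicc : IsIcc Γ) (hv : ∀ g, InVN (v g))
    (hc0 : ∀ ξ ζ, Tendsto (fun g => ⟪ζ, v g ξ⟫_ℂ) cofinite (𝓝 0))
    {π : Γ →* Λ} {χ : Γ →* Circle} {η : L2 Λ} (hη0 : η ≠ 0)
    (hη : ∀ g, v g (rho (π g) η) = (χ g : ℂ) • η) : Function.Injective π := by
  rw [injective_iff_map_eq_one]
  intro g hg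
  by_contra hne
  have h1 := inner_eta hicc hv hc0 hη hne
  have h2 := hη g
  rw [hg, rho_one] at h2
  rw [h2, inner_smul_right, mul_eq_zero] at h1
  rcases h1 with h1 | h1
  · exact Circle.coe_ne_zero _ h1
  · exact hη0 (inner_self_eq_zero.1 h1)

end hom

end Pool.Agent.K4H1.VN
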