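import Pool.Agent.K4H1.VN.Pr

/-!
# Unipotent matrices: propagation of group-like elements in groups of matrices
-/

set_option autoImplicit false

namespace Pool.Agent.K4H1.VN

open Matrix

section Abstract

variable {Γ Λ : Type} [Group Γ] [Group Λ] {U : L2 Γ ≃ₗᵢ[ℂ] L2 Λ}

/-- the subgroup of the group-like elements -/
def glSub (hU : IsStdIso U) : Subgroup Γ where
  carrier := {g | ∃ c k, Glk U g c k}
  one_mem' := ⟨1, 1, Glk.one hU⟩
  mul_mem' := by
    rintro a b ⟨c, k, h⟩ ⟨d, l, h'⟩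
    exact ⟨_, _, h.mul hU h'⟩
  inv_mem' := by
    rintro a ⟨c, k, h⟩
    exact ⟨_, _, h.inv hU⟩

theorem mem_glSub {hU : IsStdIso U} {g : Γ} : g ∈ glSub hU ↔ ∃ c k, Glk U g c k := Iff.rfl

theorem mem_vc_of_commute {S : Set Γ} {x : Γ} (h : ∀ b ∈ S, b * x = x * b) : x ∈ vc S :=
  fun b hb => ⟨1, le_rfl, by rw [pow_one, h b hb]⟩

/-- one step of the propagation -/
theorem gl_step (hU : IsStdIso U) {S₁ S₂ : Set Γ} {h g : Γ} (hS₁ : ∀ b ∈ S₁, b ∈ glSub hU)
    (hS₂ : ∀ b ∈ S₂, b ∈ glSub hU) (hh : h ∈ glSub hU) (hg₁ : g ∈ vc S₁)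
    (hg₂ : g⁻¹ * (h * g * h⁻¹) ∈ vc S₂) (h12 : ∀ x ∈ vc S₁, x ∈ vc S₂ → x = 1)
    (h13 : ∀ x ∈ vc S₁, h⁻¹ * x * h ∈ vc S₁ → x = 1) : g ∈ glSub hU := by
  have h3 : ∀ b ∈ (fun b => h * b * h⁻¹) '' S₁, b ∈ glSub hU := by
    rintro _ ⟨b, hb, rfl⟩
    exact (glSub hU).mul_mem ((glSub hU).mul_mem hh (hS₁ b hb)) ((glSub hU).inv_mem hh)
  refine gl_of_compat hU (compat_vc hU hS₁) (compat_vc hU hS₂) (compat_vc hU h3) h12
    (fun x hx hx' => h13 x hx fun b hb => ?_) hg₁ hg₂ ?_
  · obtain ⟨N, hN, hc⟩ := hx' _ ⟨b, hb, rfl⟩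
    refine ⟨N, hN, ?_⟩
    have h1 : (h * b * h⁻¹) ^ N = h * b ^ N * h⁻¹ := conj_pow
    simp only at hc
    rw [h1] at hc
    have h2 : b ^ N * (h⁻¹ * x * h) = h⁻¹ * (h * b ^ N * h⁻¹ * x) * h := by group
    rw [h2, hc]
    group
  · rw [mul_inv_cancel_left]
    rintro _ ⟨b, hb, rfl⟩
    obtain ⟨N, hN, hc⟩ := hg₁ b hb
    refine ⟨N, hN, ?_⟩
    have h1 : (h * b * h⁻¹) ^ N = h * b ^ N * h⁻¹ := conj_pow
    simp only
    rw [h1]
    have h2 : h * b ^ N * h⁻¹ * (h * g * h⁻¹) = h * (b ^ N * g) * h⁻¹ := by group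
    rw [h2, hc]
    group

end Abstract

variable {R : Type} [CommRing R] {I : Type} [Fintype I] [DecidableEq I]
variable {Γ : Subgroup (SpecialLinearGroup I R)}

theorem mat_mul (g h : Γ) : mat (g * h) = mat g * mat h :=
  Matrix.SpecialLinearGroup.coe_mul (g : SpecialLinearGroup I R) (h : SpecialLinearGroup I R)

theorem mat_one : mat (1 : Γ) = 1 := rfl

theorem mat_pow (g : Γ) (N : ℕ) : mat (g ^ N) = mat g ^ N := by
  induction N with
  | zero => rw [pow_zero, pow_zero, mat_one]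
  | succ N ih => rw [pow_succ, pow_succ, mat_mul, ih]

theorem mat_inj {g h : Γ} (e : mat g = mat h) : g = h := Subtype.ext (Subtype.ext e)

theorem mat_mul_inv (g : Γ) : mat g * mat g⁻¹ = 1 := by rw [← mat_mul, mul_inv_cancel, mat_one]

theorem mat_inv_mul (g : Γ) : mat g⁻¹ * mat g = 1 := by rw [← mat_mul, inv_mul_cancel, mat_one]

theorem mat_inv_eq {g : Γ} {B : Matrix I I R} (h : mat g * B = 1) : mat g⁻¹ = B := by
  have h1 : mat g⁻¹ * (mat g * B) = mat g⁻¹ := by rw [h, mul_one]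
  rw [← h1, ← mul_assoc, mat_inv_mul, one_mul]

theorem pow_one_add {A : Matrix I I R} (hA : A * A = 0) (a : R) (N : ℕ) :
    (1 + a • A) ^ N = 1 + ((N : R) * a) • A := by
  induction N with
  | zero => simp
  | succ N ih =>
    rw [pow_succ, ih, mul_add, mul_one, add_mul, one_mul, smul_mul_smul_comm, hA, smul_zero,
      add_zero, add_assoc, ← add_smul]
    congr 2
    push_cast
    ring

/-- `1 + N r A` belongs to `G` for some `N ≥ 1`, for every `r` -/
def Gd (G : Subgroup Γ) (A : Matrix I I R) : Prop :=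
  A * A = 0 ∧ ∀ r : R, ∃ N : ℕ, 1 ≤ N ∧ ∃ g ∈ G, mat g = 1 + ((N : R) * r) • A

variable {G : Subgroup Γ}

theorem Gd.smul {A : Matrix I I R} (hA : Gd G A) (s : R) : Gd G (s • A) := by
  refine ⟨by rw [smul_mul_smul_comm, hA.1, smul_zero], fun r => ?_⟩
  obtain ⟨N, hN, g, hg, h⟩ := hA.2 (r * s)
  exact ⟨N, hN, g, hg, by rw [h, smul_smul, mul_assoc]⟩

theorem Gd.zero : Gd G (0 : Matrix I I R) :=
  ⟨mul_zero _, fun r => ⟨1, le_rfl, 1, G.one_mem, by rw [smul_zero, add_zero, mat_one]⟩⟩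

theorem Gd.add {A B : Matrix I I R} (hA : Gd G A) (hB : Gd G B) (hAB : A * B = 0)
    (hBA : B * A = 0) : Gd G (A + B) := by
  refine ⟨by rw [add_mul, mul_add, mul_add, hA.1, hB.1, hAB, hBA]; simp, fun r => ?_⟩
  obtain ⟨N, hN, g, hg, h⟩ := hA.2 r
  obtain ⟨M, hM, g', hg', h'⟩ := hB.2 r
  refine ⟨M * N, Nat.mul_pos hM hN, g ^ M * g' ^ N, G.mul_mem (G.pow_mem hg M) (G.pow_mem hg' N),
    ?_⟩
  rw [mat_mul, mat_pow, mat_pow, h, h', pow_one_add hA.1, pow_one_add hB.1, mul_add, mul_one,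
    add_mul, one_mul, smul_mul_smul_comm, hAB, smul_zero, add_zero, smul_add, add_assoc]
  congr 2
  · congr 1
    push_cast
    ring
  · congr 1
    push_cast
    ring

theorem Gd.sum {ι : Type} (s : Finset ι) (A : ι → Matrix I I R) (h : ∀ i ∈ s, Gd G (A i))
    (h0 : ∀ i ∈ s, ∀ j ∈ s, A i * A j = 0) : Gd G (∑ i ∈ s, A i) := by
  classical
  induction s using Finset.induction_on with
  | empty =>
    rw [Finset.sum_empty]
    exact Gd.zero
  | insert a s ha ih =>
    rw [Finset.sum_insert ha]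
    refine (h a (Finset.mem_insert_self _ _)).add
      (ih (fun i hi => h i (Finset.mem_insert_of_mem hi))
        (fun i hi j hj => h0 i (Finset.mem_insert_of_mem hi) j (Finset.mem_insert_of_mem hj))) ?_ ?_
    · rw [Finset.mul_sum]
      exact Finset.sum_eq_zero fun j hj => h0 a (Finset.mem_insert_self _ _) j
        (Finset.mem_insert_of_mem hj)
    · rw [Finset.sum_mul]
      exact Finset.sum_eq_zero fun j hj => h0 j (Finset.mem_insert_of_mem hj) a
        (Finset.mem_insert_self _ _)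

theorem Gd.mul {A B : Matrix I I R} (hA : Gd G A) (hB : Gd G B) (hBA : B * A = 0) :
    Gd G (A * B) := by
  refine ⟨by rw [mul_assoc, ← mul_assoc B, hBA, zero_mul, mul_zero], fun r => ?_⟩
  obtain ⟨N, hN, g, hg, h⟩ := hA.2 r
  obtain ⟨M, hM, g', hg', h'⟩ := hB.2 1
  refine ⟨N * M, Nat.mul_pos hN hM, g * g' * (g' * g)⁻¹,
    G.mul_mem (G.mul_mem hg hg') (G.inv_mem (G.mul_mem hg' hg)), ?_⟩
  have h1 : mat (g * g') = (1 + ((N : R) * r * M) • (A * B)) * mat (g' * g) := by
    rw [mat_mul, mat_mul, h, h']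
    simp only [mul_add, add_mul, mul_one, one_mul, smul_mul_smul_comm, hBA, smul_zero,
      add_zero]
    simp only [Matrix.smul_mul, Matrix.mul_smul, ← mul_assoc, smul_smul]
    simp only [mul_assoc, hB.1, hBA, hA.1, mul_zero, smul_zero, add_zero]
    abel
  rw [mat_mul, h1, mul_assoc, mat_mul_inv, mul_one]
  congr 2
  push_cast
  ring

/-- the matrix unit -/
abbrev E (i j : I) : Matrix I I R := Matrix.single i j 1

theorem E_mul_E (i j k l : I) : (E i j : Matrix I I R) * E k l = if j = k then E i l else 0 := by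
  unfold E
  by_cases h : j = k
  · subst h
    rw [Matrix.single_mul_single_same, if_pos rfl, mul_one]
  · rw [if_neg h]
    exact Matrix.single_mul_single_of_ne (1 : R) i j k h 1

theorem E_sq {i j : I} (h : i ≠ j) : (E i j : Matrix I I R) * E i j = 0 := by
  rw [E_mul_E, if_neg h.symm]

theorem E_eq (i j : I) : (E i j : Matrix I I R) = vecMulVec (Pi.single i 1) (Pi.single j 1) :=
  Matrix.single_eq_single_vecMulVec_single i j

theorem vmv_mul (u v w x : I → R) :
    vecMulVec u v * vecMulVec w x = (v ⬝ᵥ w) • vecMulVec u x := by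
  rw [vecMulVec_mul_vecMulVec, vecMulVec_smul]

theorem vmv_mul_zero (u v w x : I → R) (h : v ⬝ᵥ w = 0) :
    vecMulVec u v * vecMulVec w x = 0 := by
  rw [vmv_mul, h, zero_smul]

theorem dot_single (u : I → R) (i : I) : u ⬝ᵥ (Pi.single i 1) = u i := by
  rw [dotProduct_single, mul_one]

theorem single_dot (u : I → R) (i : I) : (Pi.single i 1) ⬝ᵥ u = u i := by
  rw [single_dotProduct, one_mul]

theorem gd_col (hE : ∀ i j : I, i ≠ j → Gd G (E i j : Matrix I I R)) (u : I → R) (i : I)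
    (hi : u i = 0) : Gd G (vecMulVec u (Pi.single i 1)) := by
  have h1 : vecMulVec u (Pi.single i 1) = ∑ l, u l • E (R := R) l i := by
    ext a b
    rw [Matrix.sum_apply, Finset.sum_eq_single a]
    · simp [vecMulVec_apply, Pi.single_apply, eq_comm, Matrix.single]
    · intro c _ hc
      simp [Matrix.single, hc]
    · simp
  rw [h1]
  refine Gd.sum _ _ (fun l _ => ?_) fun l _ l' _ => ?_
  · by_cases hl : l = i
    · rw [hl, hi, zero_smul]
      exact Gd.zero
    · exact (hE l i hl).smul _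
  · rw [smul_mul_smul_comm, E_mul_E]
    by_cases hl : i = l'
    · rw [← hl, hi, mul_zero, zero_smul]
    · rw [if_neg hl, smul_zero]

theorem gd_row (hE : ∀ i j : I, i ≠ j → Gd G (E i j : Matrix I I R)) (u : I → R) (i : I)
    (hi : u i = 0) : Gd G (vecMulVec (Pi.single i 1) u) := by
  have h1 : vecMulVec (Pi.single i 1) u = ∑ l, u l • E (R := R) i l := by
    ext a b
    rw [Matrix.sum_apply, Finset.sum_eq_single b]
    · simp [vecMulVec_apply, Pi.single_apply, eq_comm, Matrix.single]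
    · intro c _ hc
      simp [Matrix.single, hc]
    · simp
  rw [h1]
  refine Gd.sum _ _ (fun l _ => ?_) fun l _ l' _ => ?_
  · by_cases hl : i = l
    · rw [← hl, hi, zero_smul]
      exact Gd.zero
    · exact (hE i l hl).smul _
  · rw [smul_mul_smul_comm, E_mul_E]
    by_cases hl : l = i
    · rw [hl, hi, zero_mul, zero_smul]
    · rw [if_neg hl, smul_zero]

theorem gd_mid (hE : ∀ i j : I, i ≠ j → Gd G (E i j : Matrix I I R)) (u ψ : I → R)
    (hψ : ψ ⬝ᵥ u = 0) (i : I) (hi : ψ i = 0) : Gd G (vecMulVec u ψ) := by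
  have hu' : (u - u i • (Pi.single i (1 : R) : I → R)) i = 0 := by
    simp
  have hd : ψ ⬝ᵥ (u - u i • (Pi.single i (1 : R) : I → R)) = 0 := by
    rw [dotProduct_sub, hψ, dotProduct_smul, dot_single, hi, smul_zero, sub_zero]
  have h1 : vecMulVec u ψ = u i • vecMulVec (Pi.single i 1) ψ +
      vecMulVec (u - u i • (Pi.single i (1 : R) : I → R)) (Pi.single i 1) *
        vecMulVec (Pi.single i 1) ψ := by
    rw [vmv_mul, dot_single, Pi.single_eq_same, one_smul, ← smul_vecMulVec, ← add_vecMulVec]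
    congr 1
    abel
  rw [h1]
  have h2 := gd_row hE ψ i hi
  refine (h2.smul _).add ((gd_col hE _ i hu').mul h2 ?_) ?_ ?_
  · exact vmv_mul_zero _ _ _ _ hd
  · rw [Matrix.smul_mul, ← mul_assoc, vmv_mul_zero _ _ _ _ hd, zero_mul, smul_zero]
  · rw [Matrix.mul_smul, mul_assoc, vmv_mul_zero (Pi.single i 1) ψ (Pi.single i 1) ψ
      (by rw [dot_single, hi]), mul_zero, smul_zero]

/-- all elementary unipotent matrices, up to a power -/
theorem gd_all (hE : ∀ i j : I, i ≠ j → Gd G (E i j : Matrix I I R)) (hI : 3 ≤ Fintype.card I)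
    (u ψ : I → R) (hψ : ψ ⬝ᵥ u = 0) (j : I) : Gd G (u j • vecMulVec u ψ) := by
  have h1 : u j • vecMulVec u ψ = ∑ k, ψ k • vecMulVec u
      (u j • (Pi.single k (1 : R) : I → R) - u k • (Pi.single j (1 : R) : I → R)) := by
    ext a b
    rw [Matrix.sum_apply]
    simp only [Matrix.smul_apply, vecMulVec_apply, Pi.sub_apply, Pi.smul_apply, smul_eq_mul, mul_sub,
      Finset.sum_sub_distrib, Pi.single_apply]
    have h2 : ∑ x, ψ x * (u a * (u x * if b = j then 1 else 0)) = 0 := by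
      have h3 : ∀ x, ψ x * (u a * (u x * if b = j then 1 else 0)) =
          (ψ x * u x) * (u a * if b = j then 1 else 0) := fun x => by ring
      simp_rw [h3]
      rw [← Finset.sum_mul]
      have h4 : ∑ x, ψ x * u x = 0 := hψ
      rw [h4, zero_mul]
    rw [h2, sub_zero, Finset.sum_eq_single b]
    · rw [if_pos rfl]
      ring
    · intro c _ hc
      rw [if_neg (Ne.symm hc)]
      ring
    · simp
  have h0 : ∀ k, (u j • (Pi.single k (1 : R) : I → R) - u k • (Pi.single j (1 : R) : I → R)) ⬝ᵥ u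
      = 0 := by
    intro k
    rw [sub_dotProduct, smul_dotProduct, smul_dotProduct, single_dot, single_dot, smul_eq_mul,
      smul_eq_mul, mul_comm, sub_self]
  rw [h1]
  refine Gd.sum _ _ (fun k _ => ?_) fun k _ l _ => ?_
  · refine Gd.smul ?_ _
    obtain ⟨i, hi⟩ : ∃ i, i ∉ ({j, k} : Finset I) := by
      by_contra hcon
      push Not at hcon
      have h2 : Fintype.card I ≤ ({j, k} : Finset I).card := by
        rw [← Finset.card_univ]
        exact Finset.card_le_card fun x _ => hcon x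
      have h3 : ({j, k} : Finset I).card ≤ 2 := Finset.card_le_two
      omega
    rw [Finset.mem_insert, Finset.mem_singleton, not_or] at hi
    refine gd_mid hE _ _ (h0 k) i ?_
    simp [Pi.single_apply, hi.1, hi.2]
  · rw [smul_mul_smul_comm, vmv_mul_zero _ _ _ _ (h0 k), smul_zero]

theorem commute_of_pow [IsDomain R] [CharZero R] {A X : Matrix I I R} {c : R} (hc : c ≠ 0)
    {N : ℕ} (hN : 1 ≤ N) (hA : A * A = 0) (h : (1 + c • A) ^ N * X = X * (1 + c • A) ^ N) :
    A * X = X * A := by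
  rw [pow_one_add hA, add_mul, mul_add, one_mul, mul_one, add_left_cancel_iff, Matrix.smul_mul,
    Matrix.mul_smul] at h
  ext a b
  have h1 := congrFun (congrFun h a) b
  rw [Matrix.smul_apply, Matrix.smul_apply, smul_eq_mul, smul_eq_mul] at h1
  refine mul_left_cancel₀ (mul_ne_zero ?_ hc) h1
  exact Nat.cast_ne_zero.2 (by omega)

theorem vc_commute [IsDomain R] [CharZero R] {S : Set Γ} {x : Γ} (hx : x ∈ vc S) {b : Γ}
    (hb : b ∈ S) {c : R} {A : Matrix I I R} (hc : c ≠ 0) (hA : A * A = 0)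
    (hbA : mat b = 1 + c • A) : A * mat x = mat x * A := by
  obtain ⟨N, hN, h⟩ := hx b hb
  have h1 := congrArg mat h
  rw [mat_mul, mat_mul, mat_pow, hbA] at h1
  exact commute_of_pow hc hN hA h1

/-- the final step -/
theorem gl_final [IsDomain R] [CharZero R] {Λ : Type} [Group Λ] {U : L2 Γ ≃ₗᵢ[ℂ] L2 Λ}
    (hU : IsStdIso U) (hI : 3 ≤ Fintype.card I) (hS : NoScalar Γ)
    (hG : ∀ u ψ : I → R, u ≠ 0 → ψ ⬝ᵥ u = 0 → ∃ c : R, c ≠ 0 ∧
      Gd (glSub hU) (c • vecMulVec u ψ)) (g : Γ) : ∃ c k, Glk U g c k := by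
  let S : Set Γ := {b | b ∈ glSub hU ∧ g * b * g⁻¹ ∈ glSub hU}
  have hkey : ∀ i j : I, i ≠ j → ∃ b ∈ S, ∃ c : R, c ≠ 0 ∧ mat b = 1 + c • E i j := by
    intro i j hij
    have hu0 : mat g *ᵥ Pi.single i 1 ≠ 0 := by
      intro h0
      have h1 := congrArg (fun v => mat g⁻¹ *ᵥ v) h0
      simp only [mulVec_mulVec, mat_inv_mul, one_mulVec, mulVec_zero] at h1
      have h2 := congrFun h1 i
      rw [Pi.single_eq_same] at h2
      exact one_ne_zero h2
    have hψ : (Pi.single j 1 ᵥ* mat g⁻¹) ⬝ᵥ (mat g *ᵥ Pi.single i 1) = 0 := by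
      rw [dotProduct_mulVec, vecMul_vecMul, mat_inv_mul, vecMul_one, dot_single]
      simp [hij]
    obtain ⟨c, hc, hgc⟩ := hG _ _ hu0 hψ
    have hi0 : (Pi.single i (1 : R) : I → R) ≠ 0 := by
      intro h0
      have h2 := congrFun h0 i
      rw [Pi.single_eq_same] at h2
      exact one_ne_zero h2
    obtain ⟨d, hd, hgd⟩ := hG (Pi.single i 1) (Pi.single j 1) hi0
      (by rw [dot_single]; simp [hij])
    rw [← E_eq] at hgd
    obtain ⟨N, hN, a, ha, hma⟩ := hgc.2 d
    obtain ⟨M, hM, b, hb, hmb⟩ := hgd.2 c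
    have hbn : mat (b ^ N) = 1 + ((N : R) * M * c * d) • E i j := by
      rw [mat_pow, hmb, pow_one_add hgd.1, smul_smul]
      congr 2
      ring
    have han : g * b ^ N * g⁻¹ = a ^ M := by
      apply mat_inj
      rw [mat_mul, mat_mul, hbn, mat_pow, hma, pow_one_add hgc.1, mul_add, mul_one, add_mul,
        mat_mul_inv, Matrix.mul_smul, Matrix.smul_mul, E_eq, mul_vecMulVec, vecMulVec_mul,
        smul_smul]
      congr 2
      ring
    refine ⟨b ^ N, ⟨(glSub hU).pow_mem hb N, ?_⟩, _, ?_, hbn⟩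
    · rw [han]
      exact (glSub hU).pow_mem ha M
    · have h1 : (N : R) ≠ 0 := Nat.cast_ne_zero.2 (by omega)
      have h2 : (M : R) ≠ 0 := Nat.cast_ne_zero.2 (by omega)
      exact mul_ne_zero (mul_ne_zero (mul_ne_zero h1 h2) hc) hd
  refine gl_of_conj hU (S := S) (fun b hb => ⟨hb.1, hb.2⟩) fun x hx => ?_
  have hcomm : Pairwise fun i j => Commute (Matrix.single i j (1 : R)) (mat x) := by
    intro i j hij
    obtain ⟨b, hb, c, hc, hbc⟩ := hkey i j hij
    exact vc_commute hx hb hc (E_sq hij) hbc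
  obtain ⟨r, hr⟩ := mem_range_scalar_of_commute_single hcomm
  refine hS x r ?_
  rw [← hr, Matrix.scalar_apply, Matrix.smul_one_eq_diagonal]

theorem transvection_eq (i j : I) (r : R) : transvection i j r = 1 + r • E i j := by
  rw [transvection, Matrix.smul_single, smul_eq_mul, mul_one]

/-- linear independence of two vectors -/
def Ind (v w : I → R) : Prop := ∀ s t : R, s • v = t • w → s = 0 ∧ t = 0

theorem Ind.left_ne [Nontrivial R] {v w : I → R} (h : Ind v w) : v ≠ 0 := by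
  rintro rfl
  exact one_ne_zero (h 1 0 (by simp)).1

theorem Ind.right_ne [Nontrivial R] {v w : I → R} (h : Ind v w) : w ≠ 0 := by
  rintro rfl
  exact one_ne_zero (h 0 1 (by simp)).2

theorem Ind.add {v w : I → R} (h : Ind v w) : Ind v (v + w) := by
  intro s t hst
  have h1 : (s - t) • v = t • w := by
    rw [sub_smul, hst, smul_add]
    abel
  obtain ⟨h2, h3⟩ := h _ _ h1
  exact ⟨by rw [sub_eq_zero.1 h2, h3], h3⟩

theorem Ind.smul_right [IsDomain R] {v w : I → R} (h : Ind v w) {a : R} (ha : a ≠ 0) :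
    Ind v (a • w) := by
  intro s t hst
  rw [smul_smul] at hst
  obtain ⟨h2, h3⟩ := h _ _ hst
  exact ⟨h2, (mul_eq_zero.1 h3).resolve_right ha⟩

theorem col_inter {v w : I → R} (h : Ind v w) {x : Γ} (hx : x ∈ colGroup Γ v)
    (hx' : x ∈ colGroup Γ w) : x = 1 := by
  obtain ⟨a, ha⟩ := hx
  obtain ⟨b, hb⟩ := hx'
  rw [ha, add_left_cancel_iff] at hb
  have h0 : a = 0 := by
    funext j
    refine (h (a j) (b j) ?_).1
    funext i
    have h1 := congrFun (congrFun hb i) j
    rw [vecMulVec_apply, vecMulVec_apply] at h1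
    rw [Pi.smul_apply, Pi.smul_apply, smul_eq_mul, smul_eq_mul, mul_comm, h1, mul_comm]
  apply mat_inj
  rw [ha, h0, vecMulVec_zero, add_zero, mat_one]

theorem gd_of_col [IsDomain R] [CharZero R] {Λ : Type} [Group Λ] {U : L2 Γ ≃ₗᵢ[ℂ] L2 Λ}
    (hU : IsStdIso U) (hΓ : Rich Γ) {i j k : I} (hij : i ≠ j) (hik : i ≠ k) (hkj : k ≠ j)
    (hv : ∃ K : Subgroup Λ, MapsSub U (colGroup Γ (Pi.single i 1)) K)
    (hw : ∃ K : Subgroup Λ, MapsSub U (colGroup Γ (Pi.single k 1)) K)
    (hvw : ∃ K : Subgroup Λ, MapsSub U (colGroup Γ (Pi.single i 1 + Pi.single k 1)) K) :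
    Gd (glSub hU) (E i j : Matrix I I R) := by
  have hind : Ind (Pi.single i (1 : R) : I → R) (Pi.single k 1) := by
    intro s t hst
    have h1 := congrFun hst i
    have h2 := congrFun hst k
    simp [Pi.single_apply, hik, hik.symm] at h1 h2
    exact ⟨h1, h2.symm⟩
  refine ⟨E_sq hij, fun r => ?_⟩
  obtain ⟨N, hN, g, hg⟩ := hΓ i j hij r
  obtain ⟨M, hM, g', hg'⟩ := hΓ k j hkj r
  rw [transvection_eq] at hg hg'
  have hgM : mat (g ^ M) = 1 + (((N * M : ℕ) : R) * r) • E i j := by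
    rw [mat_pow, hg, pow_one_add (E_sq hij)]
    congr 2
    push_cast
    ring
  have hgN : mat (g' ^ N) = 1 + (((N * M : ℕ) : R) * r) • E k j := by
    rw [mat_pow, hg', pow_one_add (E_sq hkj)]
    congr 2
    push_cast
    ring
  refine ⟨N * M, Nat.mul_pos hN hM, g ^ M, ?_, hgM⟩
  rw [E_eq, ← vecMulVec_smul] at hgM hgN
  obtain ⟨K₁, h₁⟩ := hv
  obtain ⟨K₂, h₂⟩ := hw
  obtain ⟨K₃, h₃⟩ := hvw
  refine gl_of_compat hU (h₁.compat hU) (h₂.compat hU) (h₃.compat hU)
    (fun x hx hx' => col_inter hind hx hx') (fun x hx hx' => col_inter hind.add hx hx')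
    (g₂ := g' ^ N) ⟨_, hgM⟩ ⟨_, hgN⟩ ⟨(((N * M : ℕ) : R) * r) • (Pi.single j (1 : R) : I → R), ?_⟩
  rw [mat_mul, hgM, hgN, mul_add, mul_one, add_mul, one_mul, vmv_mul, smul_dotProduct,
    dot_single, Pi.single_eq_of_ne hkj, smul_zero, zero_smul, add_zero, add_vecMulVec, add_assoc]

section Seeds

variable {Λ : Type} [Group Λ] {U : L2 Γ ≃ₗᵢ[ℂ] L2 Λ}

/-- group-like elements `1 + m E_kl` of `Γ`, `k, l ≠ o` -/
def Sd (hU : IsStdIso U) (o : I) (P : I → I → Prop) : Set Γ :=
  {b | b ∈ glSub hU ∧ ∃ k l, k ≠ l ∧ k ≠ o ∧ l ≠ o ∧ P k l ∧ ∃ m : R, m ≠ 0 ∧ mat b = 1 + m • E k l}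

/-- the seeds -/
def SeedHyp (hU : IsStdIso U) (o : I) : Prop :=
  ∀ k l, k ≠ l → k ≠ o → l ≠ o → ∃ b ∈ glSub hU, ∃ m : R, m ≠ 0 ∧ mat b = 1 + m • E k l

variable {o : I} {hU : IsStdIso U}

theorem comm_Sd [IsDomain R] [CharZero R] (hs : SeedHyp hU o) {P : I → I → Prop} {x : Γ}
    (hx : x ∈ vc (Sd hU o P)) {k l : I} (hkl : k ≠ l) (hk : k ≠ o) (hl : l ≠ o) (hP : P k l) :
    Commute (E k l) (mat x) := by
  obtain ⟨b, hb, m, hm, hbm⟩ := hs k l hkl hk hl
  exact vc_commute hx (b := b) ⟨hb, k, l, hkl, hk, hl, hP, m, hm, hbm⟩ hm (E_sq hkl) hbm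

theorem mem_vc_Sd {P : I → I → Prop} {x : Γ}
    (h : ∀ k l, k ≠ l → k ≠ o → l ≠ o → P k l → Commute (E k l) (mat x)) :
    x ∈ vc (Sd hU o P) := by
  apply mem_vc_of_commute
  rintro b ⟨-, k, l, hkl, hk, hl, hP, m, -, hbm⟩
  apply mat_inj
  rw [mat_mul, mat_mul, hbm, add_mul, mul_add, one_mul, mul_one, Matrix.smul_mul,
    Matrix.mul_smul, (h k l hkl hk hl hP).eq]

theorem block_center (hI : 3 ≤ Fintype.card I) (hd : NoBlockScalar Γ o) {x : Γ}
    (h : ∀ k l, k ≠ l → k ≠ o → l ≠ o → Commute (E k l) (mat x)) : x = 1 := by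
  have hex : ∀ k, k ≠ o → ∃ l, l ≠ k ∧ l ≠ o := by
    intro k hk
    by_contra hcon
    push Not at hcon
    have h2 : Fintype.card I ≤ ({k, o} : Finset I).card := by
      rw [← Finset.card_univ]
      refine Finset.card_le_card fun x _ => ?_
      rw [Finset.mem_insert, Finset.mem_singleton]
      by_cases hx : x = k
      · exact Or.inl hx
      · exact Or.inr (hcon x hx)
    have h3 : ({k, o} : Finset I).card ≤ 2 := Finset.card_le_two
    omega
  obtain ⟨k₀, hk₀⟩ : ∃ k, k ≠ o := by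
    by_contra hcon
    push Not at hcon
    have h2 : Fintype.card I ≤ ({o} : Finset I).card := by
      rw [← Finset.card_univ]
      exact Finset.card_le_card fun x _ => Finset.mem_singleton.2 (hcon x)
    rw [Finset.card_singleton] at h2
    omega
  refine hd x (mat x k₀ k₀) (mat x o o) ?_
  ext a b
  by_cases hab : a = b
  · subst hab
    rw [diagonal_apply_eq]
    by_cases ha : a = o
    · rw [if_pos ha, ha]
    · rw [if_neg ha]
      by_cases hak : a = k₀
      · rw [hak]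
      · exact diag_eq_of_commute_single (h a k₀ hak ha hk₀)
  · rw [diagonal_apply_ne _ hab]
    by_cases ha : a = o
    · have hb : b ≠ o := fun hb => hab (ha.trans hb.symm)
      obtain ⟨l, hl, hlo⟩ := hex b hb
      exact col_eq_zero_of_commute_single (h b l hl.symm hb hlo) hab
    · obtain ⟨l, hl, hlo⟩ := hex a ha
      exact row_eq_zero_of_commute_single (h l a hl hlo ha) (Ne.symm hab)

theorem commute_smul_cancel [IsDomain R] {X A : Matrix I I R} {m : R} (hm : m ≠ 0)
    (h : Commute X (m • A)) : Commute X A := by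
  have h1 := h.eq
  rw [Matrix.smul_mul, Matrix.mul_smul] at h1
  show X * A = A * X
  ext a b
  have h2 := congrFun (congrFun h1 a) b
  rw [Matrix.smul_apply, Matrix.smul_apply, smul_eq_mul, smul_eq_mul] at h2
  exact mul_left_cancel₀ hm h2

theorem swap_comm [IsDomain R] {i j : I} (hij : i ≠ j) {x h : Γ} {m : R} (hm : m ≠ 0)
    (hh : mat h = 1 + m • E j i) (hx : Commute (E i j) (mat x))
    (hx' : Commute (E i j) (mat (h⁻¹ * x * h))) : Commute (E j i) (mat x) := by
  set X := mat x with hX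
  set P : Matrix I I R := E i j with hP
  set Q : Matrix I I R := E j i with hQ
  have hinv : mat h⁻¹ = 1 - m • Q := by
    apply mat_inv_eq
    rw [hh, mul_sub, mul_one, add_mul, one_mul, smul_mul_smul_comm, E_sq hij.symm, smul_zero]
    abel
  have hPP : P * P = 0 := E_sq hij
  have hQQ : Q * Q = 0 := E_sq hij.symm
  have hQPQ : Q * P * Q = Q := by
    rw [hQ, hP, E_mul_E, if_pos rfl, E_mul_E, if_pos rfl]
  have hPQP : P * Q * P = P := by
    rw [hQ, hP, E_mul_E, if_pos rfl, E_mul_E, if_pos rfl]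
  -- `X` commutes with `H P H⁻¹`
  have h1 : Commute X (mat h * P * mat h⁻¹) := by
    have h2 := hx'.eq
    rw [mat_mul, mat_mul] at h2
    show X * (mat h * P * mat h⁻¹) = mat h * P * mat h⁻¹ * X
    calc X * (mat h * P * mat h⁻¹) = mat h * ((mat h⁻¹ * X * mat h) * P) * mat h⁻¹ := by
          simp only [← mul_assoc]
          rw [mat_mul_inv, one_mul]
      _ = mat h * (P * (mat h⁻¹ * X * mat h)) * mat h⁻¹ := by rw [h2]
      _ = mat h * P * mat h⁻¹ * X := by
          simp only [mul_assoc]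
          rw [mat_mul_inv, mul_one]
  have h3 : mat h * P * mat h⁻¹ = P + m • ((Q * P - P * Q) - m • Q) := by
    rw [hh, hinv]
    simp only [mul_sub, mul_one, add_mul, one_mul, Matrix.mul_smul, Matrix.smul_mul, hQPQ,
      smul_sub, mul_add]
    abel
  rw [h3] at h1
  have h4 : Commute X ((Q * P - P * Q) - m • Q) := by
    have h5 := h1.sub_right hx.symm
    rw [add_sub_cancel_left] at h5
    exact commute_smul_cancel hm h5
  set B := (Q * P - P * Q) - m • Q with hB
  have h5 : Commute X (B * P - P * B) := (h4.mul_right hx.symm).sub_right (hx.symm.mul_right h4)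
  have h6 : B * P - P * B = - (m • (Q * P - P * Q)) - (2 : R) • P := by
    rw [hB]
    simp only [sub_mul, mul_sub, Matrix.smul_mul, Matrix.mul_smul, smul_sub]
    rw [← mul_assoc P Q P, hPQP, ← mul_assoc P P Q, hPP, zero_mul, mul_assoc Q P P, hPP, mul_zero,
      two_smul]
    abel
  rw [h6] at h5
  have h7 : Commute X (Q * P - P * Q) := by
    have h8 : Commute X ((2 : R) • P) := hx.symm.smul_right 2
    have h9 := (h5.add_right h8).neg_right
    rw [sub_add_cancel, neg_neg] at h9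
    exact commute_smul_cancel hm h9
  have h10 := h7.sub_right h4
  rw [hB, sub_sub_cancel] at h10
  exact (commute_smul_cancel hm h10).symm

theorem exists_third (hI : 3 ≤ Fintype.card I) (i o : I) : ∃ j, j ≠ i ∧ j ≠ o := by
  by_contra hcon
  push Not at hcon
  have h2 : Fintype.card I ≤ ({i, o} : Finset I).card := by
    rw [← Finset.card_univ]
    refine Finset.card_le_card fun x _ => ?_
    rw [Finset.mem_insert, Finset.mem_singleton]
    by_cases hx : x = i
    · exact Or.inl hx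
    · exact Or.inr (hcon x hx)
  have h3 : ({i, o} : Finset I).card ≤ 2 := Finset.card_le_two
  omega

theorem comm_of_zero {A B : Matrix I I R} {a : R} (h1 : A * B = 0) (h2 : B * A = 0) :
    Commute A (1 + a • B) := by
  show A * (1 + a • B) = (1 + a • B) * A
  rw [mul_add, add_mul, Matrix.mul_smul, Matrix.smul_mul, h1, h2, mul_one, one_mul]

theorem mat_conj_eq {g h : Γ} {Z : Matrix I I R} (hZ : mat h * mat g = mat g * Z * mat h) :
    mat (g⁻¹ * (h * g * h⁻¹)) = Z := by
  rw [mat_mul, mat_mul, mat_mul, hZ, mul_assoc (mat g * Z), mat_mul_inv, mul_one, ← mul_assoc,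
    mat_inv_mul, one_mul]

theorem gl_col_o [IsDomain R] [CharZero R] (hI : 3 ≤ Fintype.card I) (hd : NoBlockScalar Γ o)
    (hs : SeedHyp hU o) {i : I} (hi : i ≠ o) {a : R} {g : Γ} (hg : mat g = 1 + a • E i o) :
    g ∈ glSub hU := by
  obtain ⟨j, hji, hjo⟩ := exists_third hI i o
  obtain ⟨h, hh, m, hm, hhm⟩ := hs j i hji hjo hi
  refine gl_step hU (S₁ := Sd hU o fun _ l => l ≠ i) (S₂ := Sd hU o fun _ l => l ≠ j)
    (fun b hb => hb.1) (fun b hb => hb.1) hh ?_ ?_ ?_ ?_
  · refine mem_vc_Sd fun k l hkl hk hl hP => ?_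
    rw [hg]
    exact comm_of_zero (by rw [E_mul_E, if_neg hP]) (by rw [E_mul_E, if_neg (Ne.symm hk)])
  · refine mem_vc_Sd fun k l hkl hk hl hP => ?_
    have hZ : mat (g⁻¹ * (h * g * h⁻¹)) = 1 + (a * m) • E j o := by
      apply mat_conj_eq
      rw [hg, hhm]
      simp only [mul_add, add_mul, mul_one, one_mul, smul_mul_smul_comm, E_mul_E, if_pos,
        if_neg (Ne.symm hjo), smul_zero, add_zero, zero_mul, Matrix.smul_mul, Matrix.mul_smul]
      rw [mul_comm m a]
      abel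
    rw [hZ]
    exact comm_of_zero (by rw [E_mul_E, if_neg hP]) (by rw [E_mul_E, if_neg (Ne.symm hk)])
  · intro x hx hx'
    refine block_center hI hd fun k l hkl hk hl => ?_
    by_cases hli : l = i
    · refine comm_Sd hs hx' hkl hk hl ?_
      rw [hli]
      exact hji.symm
    · exact comm_Sd hs hx hkl hk hl hli
  · intro x hx hx'
    have h1 : Commute (E i j) (mat x) := comm_Sd hs hx hji.symm hi hjo hji
    have h2 : Commute (E i j) (mat (h⁻¹ * x * h)) := comm_Sd hs hx' hji.symm hi hjo hji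
    have h3 : Commute (E j i) (mat x) := swap_comm hji.symm hm hhm h1 h2
    refine block_center hI hd fun k l hkl hk hl => ?_
    by_cases hli : l = i
    · subst hli
      by_cases hkj : k = j
      · rw [hkj]
        exact h3
      · have h4 : Commute (E k j) (mat x) := comm_Sd hs hx hkj hk hjo hji
        have h5 : (E k l : Matrix I I R) = E k j * E j l := by rw [E_mul_E, if_pos rfl]
        rw [h5]
        exact h4.mul_left h3
    · exact comm_Sd hs hx hkl hk hl hli

theorem gl_row_o [IsDomain R] [CharZero R] (hI : 3 ≤ Fintype.card I) (hd : NoBlockScalar Γ o)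
    (hs : SeedHyp hU o) {i : I} (hi : i ≠ o) {a : R} {g : Γ} (hg : mat g = 1 + a • E o i) :
    g ∈ glSub hU := by
  obtain ⟨j, hji, hjo⟩ := exists_third hI i o
  obtain ⟨h, hh, m, hm, hhm⟩ := hs i j hji.symm hi hjo
  refine gl_step hU (S₁ := Sd hU o fun k _ => k ≠ i) (S₂ := Sd hU o fun k _ => k ≠ j)
    (fun b hb => hb.1) (fun b hb => hb.1) hh ?_ ?_ ?_ ?_
  · refine mem_vc_Sd fun k l hkl hk hl hP => ?_
    rw [hg]
    exact comm_of_zero (by rw [E_mul_E, if_neg hl]) (by rw [E_mul_E, if_neg (Ne.symm hP)])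
  · refine mem_vc_Sd fun k l hkl hk hl hP => ?_
    have hZ : mat (g⁻¹ * (h * g * h⁻¹)) = 1 + (-(a * m)) • E o j := by
      apply mat_conj_eq
      rw [hg, hhm]
      simp only [mul_add, add_mul, mul_one, one_mul, smul_mul_smul_comm, E_mul_E, if_pos,
        if_neg hjo, if_neg hji, if_neg hi, smul_zero, add_zero, zero_mul, Matrix.smul_mul,
        Matrix.mul_smul, neg_smul, mul_neg, neg_mul, neg_zero]
      abel
    rw [hZ]
    exact comm_of_zero (by rw [E_mul_E, if_neg hl]) (by rw [E_mul_E, if_neg (Ne.symm hP)])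
  · intro x hx hx'
    refine block_center hI hd fun k l hkl hk hl => ?_
    by_cases hki : k = i
    · refine comm_Sd hs hx' hkl hk hl ?_
      rw [hki]
      exact hji.symm
    · exact comm_Sd hs hx hkl hk hl hki
  · intro x hx hx'
    have h1 : Commute (E j i) (mat x) := comm_Sd hs hx hji hjo hi hji
    have h2 : Commute (E j i) (mat (h⁻¹ * x * h)) := comm_Sd hs hx' hji hjo hi hji
    have h3 : Commute (E i j) (mat x) := swap_comm hji hm hhm h1 h2
    refine block_center hI hd fun k l hkl hk hl => ?_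
    by_cases hki : k = i
    · subst hki
      by_cases hlj : l = j
      · rw [hlj]
        exact h3
      · have h4 : Commute (E j l) (mat x) := comm_Sd hs hx (Ne.symm hlj) hjo hl hji
        have h5 : (E k l : Matrix I I R) = E k j * E j l := by rw [E_mul_E, if_pos rfl]
        rw [h5]
        exact h3.mul_left h4
    · exact comm_Sd hs hx hkl hk hl hki

theorem gd_of_rich (hΓ : Rich Γ) {i j : I} (hij : i ≠ j)
    (h : ∀ (a : R) (g : Γ), mat g = 1 + a • E i j → g ∈ G) : Gd G (E i j : Matrix I I R) := by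
  refine ⟨E_sq hij, fun r => ?_⟩
  obtain ⟨N, hN, g, hg⟩ := hΓ i j hij r
  rw [transvection_eq] at hg
  exact ⟨N, hN, g, h _ g hg, hg⟩

theorem gd_E_of_seeds [IsDomain R] [CharZero R] (hI : 3 ≤ Fintype.card I)
    (hΓ : Rich Γ) (hd : NoBlockScalar Γ o) (hs : SeedHyp hU o) (i j : I) (hij : i ≠ j) :
    Gd (glSub hU) (E i j : Matrix I I R) := by
  by_cases hi : i = o
  · have hj : j ≠ o := fun h => hij (hi.trans h.symm)
    rw [hi]
    exact gd_of_rich hΓ hj.symm fun a g hg => gl_row_o hI hd hs hj hg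
  · by_cases hj : j = o
    · rw [hj]
      exact gd_of_rich hΓ hi fun a g hg => gl_col_o hI hd hs hi hg
    · have h1 := (gd_of_rich (G := glSub hU) hΓ hi fun a g hg => gl_col_o hI hd hs hi hg).mul
        (gd_of_rich (G := glSub hU) hΓ (Ne.symm hj) fun a g hg => gl_row_o hI hd hs hj hg)
        (by rw [E_mul_E, if_neg hij.symm])
      rwa [E_mul_E, if_pos rfl] at h1

/-- **Seeds.** -/
theorem gl_of_seeds [IsDomain R] [CharZero R] (hU : IsStdIso U) (hI : 3 ≤ Fintype.card I)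
    (hΓ : Rich Γ) (hd : NoBlockScalar Γ o) (hs : SeedHyp hU o) (g : Γ) :
    ∃ c k, Glk U g c k := by
  refine gl_final hU hI ?_ ?_ g
  · intro x a hx
    refine hd x a a ?_
    rw [hx, Matrix.smul_one_eq_diagonal]
    congr 1
    funext k
    rw [ite_self]
  · intro u ψ hu hψ
    obtain ⟨j, hj⟩ := Function.ne_iff.1 hu
    exact ⟨u j, hj, gd_all (gd_E_of_seeds hI hΓ hd hs) hI u ψ hψ j⟩

/-- **Column groups.** -/
theorem gl_of_cols [IsDomain R] [CharZero R] (hU : IsStdIso U) (hI : 3 ≤ Fintype.card I)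
    (hΓ : Rich Γ) (hS : NoScalar Γ)
    (hC : ∀ i : I, ∃ K : Subgroup Λ, MapsSub U (colGroup Γ (Pi.single i 1)) K)
    (hC' : ∀ i j : I, i ≠ j → ∃ K : Subgroup Λ,
      MapsSub U (colGroup Γ (Pi.single i 1 + Pi.single j 1)) K) (g : Γ) :
    ∃ c k, Glk U g c k := by
  have hE : ∀ i j : I, i ≠ j → Gd (glSub hU) (E i j : Matrix I I R) := by
    intro i j hij
    obtain ⟨k, hki, hkj⟩ := exists_third hI i j
    exact gd_of_col hU hΓ hij hki.symm hkj (hC i) (hC k) (hC' i k hki.symm)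
  refine gl_final hU hI hS ?_ g
  intro u ψ hu hψ
  obtain ⟨j, hj⟩ := Function.ne_iff.1 hu
  exact ⟨u j, hj, gd_all hE hI u ψ hψ j⟩

theorem seedHyp_of_trans [IsDomain R] [CharZero R] (hU : IsStdIso U)
    (h : ∀ k l, k ≠ l → k ≠ o → l ≠ o → Relation.TransGen (IsSeed U) k l) : SeedHyp hU o := by
  have key : ∀ k l : I, Relation.TransGen (IsSeed U) k l → k ≠ l →
      ∃ b ∈ glSub hU, ∃ m : R, m ≠ 0 ∧ mat b = 1 + m • E k l := by
    intro k l hkl
    have hbase : ∀ {k l : I}, IsSeed U k l →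
        ∃ b ∈ glSub hU, ∃ m : R, m ≠ 0 ∧ mat b = 1 + m • E k l := by
      rintro k l ⟨-, g, m, hm, hg, hgl⟩
      refine ⟨g, (groupLikeAt_iff hU g).1 hgl, m, hm, ?_⟩
      rw [hg, transvection_eq]
    induction hkl with
    | single h => exact fun _ => hbase h
    | tail h1 h2 ih =>
      rename_i b c
      intro hkc
      by_cases hkb : k = b
      · subst hkb
        exact hbase h2
      obtain ⟨x, hx, m, hm, hxm⟩ := ih hkb
      obtain ⟨y, hy, n, hn, hyn⟩ := hbase h2
      refine ⟨x * y * (y * x)⁻¹, (glSub hU).mul_mem ((glSub hU).mul_mem hx hy)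
        ((glSub hU).inv_mem ((glSub hU).mul_mem hy hx)), m * n, mul_ne_zero hm hn, ?_⟩
      have hbc : b ≠ c := h2.1
      have h3 : mat (x * y) = (1 + (m * n) • E k c) * mat (y * x) := by
        rw [mat_mul, mat_mul, hxm, hyn]
        simp only [mul_add, add_mul, mul_one, one_mul, smul_mul_smul_comm, E_mul_E, if_pos,
          if_neg (Ne.symm hkc), if_neg (Ne.symm hbc), smul_zero, add_zero, zero_mul, mul_zero,
          Matrix.smul_mul, Matrix.mul_smul]
        abel
      rw [mat_mul, h3, mul_assoc, mat_mul_inv, mul_one]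
  exact fun k l hkl hk hl => key k l (h k l hkl hk hl) hkl

end Seeds

end Pool.Agent.K4H1.VN
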