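import Pool.Agent.K4H1.VN.Stm

/-!
# The predicates used in the statements, II
-/

set_option autoImplicit false

namespace Pool.Agent.K4H1.VN

section Abstract

variable {Γ Λ : Type} [Group Γ] [Group Λ]

/-- `U` implements an isomorphism `θ` of `L(Γ)` onto `L(Λ)` in the standard form:
`θ(x) = U x U⁻¹` and `U (x δ₁) = θ(x) δ₁` -/
def IsStdIso (U : L2 Γ ≃ₗᵢ[ℂ] L2 Λ) : Prop := U (delta 1) = delta 1 ∧ IsSpatialIso U

/-- `θ(u_g)` is a multiple of a group element -/
def GroupLikeAt (U : L2 Γ ≃ₗᵢ[ℂ] L2 Λ) (g : Γ) : Prop :=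
  ∃ (c : Circle) (k : Λ), ∀ f, U (lam g f) = (c : ℂ) • lam k (U f)

/-- `f` vanishes outside of `H` -/
def SuppIn (f : L2 Γ) (H : Set Γ) : Prop := ∀ g, g ∉ H → f g = 0

/-- compatibility in terms of the subalgebras: `θ(L(H)) = L(K)` -/
def MapsSub (U : L2 Γ ≃ₗᵢ[ℂ] L2 Λ) (H : Set Γ) (K : Subgroup Λ) : Prop :=
  ∀ T : L2 Γ →L[ℂ] L2 Γ, InVN T →
    (SuppIn (T (delta 1)) H ↔ SuppIn (U (T (U.symm (delta 1)))) K)

end Abstract

open Matrix

variable {R : Type} [CommRing R] {I : Type} [Fintype I] [DecidableEq I]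

/-- the matrix of an element of a subgroup of `SL_n(R)` -/
def mat {Γ : Subgroup (SpecialLinearGroup I R)} (g : Γ) : Matrix I I R := ((g : SpecialLinearGroup I R) : Matrix I I R)

/-- `Γ` has no scalar matrix other than `1` -/
def NoScalar (Γ : Subgroup (SpecialLinearGroup I R)) : Prop :=
  ∀ g : Γ, ∀ a : R, mat g = a • (1 : Matrix I I R) → g = 1

/-- every elementary matrix `1 + r E_ij` has a positive power in `Γ` -/
def Rich (Γ : Subgroup (SpecialLinearGroup I R)) : Prop :=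
  ∀ i j : I, i ≠ j → ∀ r : R, ∃ N : ℕ, 1 ≤ N ∧ ∃ g : Γ, mat g = transvection i j ((N : R) * r)

/-- the elements `1 + v φ` of `Γ`, for a fixed column `v` -/
def colGroup (Γ : Subgroup (SpecialLinearGroup I R)) (v : I → R) : Set Γ :=
  {g | ∃ φ : I → R, mat g = 1 + vecMulVec v φ}

/-- no element of `Γ` other than `1` is of the form `diag(a, …, a, b)`, with `b` in place `o` -/
def NoBlockScalar (Γ : Subgroup (SpecialLinearGroup I R)) (o : I) : Prop :=
  ∀ g : Γ, ∀ a b : R, mat g = diagonal (fun k => if k = o then b else a) → g = 1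

variable {Γ : Subgroup (SpecialLinearGroup I R)} {Λ : Type} [Group Λ]

/-- some `1 + m E_kl` in `Γ` with `m ≠ 0` is group-like -/
def IsSeed (U : L2 Γ ≃ₗᵢ[ℂ] L2 Λ) (k l : I) : Prop :=
  k ≠ l ∧ ∃ (g : Γ) (m : R), m ≠ 0 ∧ mat g = transvection k l m ∧ GroupLikeAt U g

/-- **Seeds**: for a place `o` (with no `diag(a, …, a, b) ≠ 1` in `Γ`, `b` in place `o`), any two
indices `k ≠ l` other than `o` are joined by a chain of seeds `1 + m E_pq` -/
def HasSeeds (U : L2 Γ ≃ₗᵢ[ℂ] L2 Λ) : Prop :=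
  ∃ o : I, NoBlockScalar Γ o ∧
    ∀ k l : I, k ≠ l → k ≠ o → l ≠ o → Relation.TransGen (IsSeed U) k l

/-- **Columns**: `Γ` has no scalar matrix other than `1`, and `θ` maps the group von Neumann
algebras of the column groups of `e_i` and of `e_i + e_j` onto those of subgroups of `Λ` -/
def RespectsColumns (U : L2 Γ ≃ₗᵢ[ℂ] L2 Λ) : Prop :=
  NoScalar Γ ∧ (∀ i : I, ∃ K : Subgroup Λ, MapsSub U (colGroup Γ (Pi.single i 1)) K) ∧
    ∀ i j : I, i ≠ j → ∃ K : Subgroup Λ,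
      MapsSub U (colGroup Γ (Pi.single i 1 + Pi.single j 1)) K

end Pool.Agent.K4H1.VN
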