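import Pool.Agent.K4H1.VN.Ic
import Pool.Agent.K4H1.VN.St2

/-!
# Propagation of group-like elements
-/

set_option autoImplicit false

namespace Pool.Agent.K4H1.VN

open scoped ComplexConjugate InnerProductSpace
open Filter Topology

variable {Γ Λ : Type} [Group Γ] [Group Λ]

/-- `U δ_g = c δ_k` -/
def Glk (U : L2 Γ ≃ₗᵢ[ℂ] L2 Λ) (g : Γ) (c : Circle) (k : Λ) : Prop :=
  U (delta g) = (c : ℂ) • delta k

/-- a unitary as a continuous linear map -/
noncomputable def tl (T : L2 Γ ≃ₗᵢ[ℂ] L2 Λ) : L2 Γ →L[ℂ] L2 Λ :=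
  (T.toContinuousLinearEquiv : L2 Γ →L[ℂ] L2 Λ)

/-- `θ(T) = U T U⁻¹` -/
noncomputable def th (U : L2 Γ ≃ₗᵢ[ℂ] L2 Λ) (T : L2 Γ →L[ℂ] L2 Γ) : L2 Λ →L[ℂ] L2 Λ :=
  (tl U).comp (T.comp (tl U.symm))

theorem th_apply (U : L2 Γ ≃ₗᵢ[ℂ] L2 Λ) (T : L2 Γ →L[ℂ] L2 Γ) (f : L2 Λ) :
    th U T f = U (T (U.symm f)) := rfl

variable {U : L2 Γ ≃ₗᵢ[ℂ] L2 Λ}

theorem IsStdIso.symm (hU : IsStdIso U) : IsStdIso U.symm := by
  refine ⟨?_, fun T => ?_⟩
  · rw [← hU.1, U.symm_apply_apply]
  · have h1 := hU.2 (th U.symm T)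
    have h2 : (fun f => U ((th U.symm T) (U.symm f))) = T := by
      funext f
      rw [th_apply, U.symm_symm, U.apply_symm_apply, U.apply_symm_apply]
    rw [h2] at h1
    exact h1.symm

theorem IsStdIso.symm_one (hU : IsStdIso U) : U.symm (delta 1) = delta 1 := hU.symm.1

theorem inVN_lam (g : Γ) : InVN (tl (lam g) : L2 Γ →L[ℂ] L2 Γ) := fun k f => (rho_lam k g f).symm

theorem inVN_th (hU : IsStdIso U) (g : Γ) : InVN (th U (tl (lam g))) :=
  (hU.2 (tl (lam g))).1 (inVN_lam g)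

theorem th_lam_delta (hU : IsStdIso U) (g : Γ) : th U (tl (lam g)) (delta 1) = U (delta g) := by
  rw [th_apply, hU.symm_one]
  show U (lam g (delta 1)) = U (delta g)
  rw [lam_delta, mul_one]

theorem th_lam_apply (g : Γ) (f : L2 Γ) : th U (tl (lam g)) (U f) = U (lam g f) := by
  rw [th_apply, U.symm_apply_apply]
  rfl

theorem Glk.left (hU : IsStdIso U) {a : Γ} {c : Circle} {k : Λ} (h : Glk U a c k) (f : L2 Γ) :
    U (lam a f) = (c : ℂ) • lam k (U f) := by
  rw [← th_lam_apply]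
  have h1 := ext_delta (T := th U (tl (lam a))) (S := (c : ℂ) • tl (lam k)) (fun x => ?_) (U f)
  · exact h1
  · have h2 : (delta x : L2 Λ) = rho x⁻¹ (delta 1) := by
      rw [rho_delta, inv_inv, one_mul]
    rw [h2, inVN_th hU, th_lam_delta hU, h]
    show rho x⁻¹ ((c : ℂ) • delta k) = (c : ℂ) • lam k (rho x⁻¹ (delta 1))
    rw [map_smul, ← rho_lam, lam_delta, mul_one]

theorem groupLikeAt_iff (hU : IsStdIso U) (g : Γ) : GroupLikeAt U g ↔ ∃ c k, Glk U g c k := by
  constructor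
  · rintro ⟨c, k, h⟩
    refine ⟨c, k, ?_⟩
    have h1 := h (delta 1)
    rw [lam_delta, mul_one, hU.1, lam_delta, mul_one] at h1
    exact h1
  · rintro ⟨c, k, h⟩
    exact ⟨c, k, h.left hU⟩

theorem Glk.mul (hU : IsStdIso U) {a b : Γ} {c d : Circle} {k l : Λ} (ha : Glk U a c k)
    (hb : Glk U b d l) : Glk U (a * b) (c * d) (k * l) := by
  have h1 := ha.left hU (delta b)
  rw [lam_delta, hb, map_smul, lam_delta, smul_smul, ← Circle.coe_mul] at h1
  exact h1

theorem Glk.one (hU : IsStdIso U) : Glk U 1 1 1 := by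
  unfold Glk
  rw [hU.1, Circle.coe_one, one_smul]

theorem Glk.inv (hU : IsStdIso U) {a : Γ} {c : Circle} {k : Λ} (ha : Glk U a c k) :
    Glk U a⁻¹ c⁻¹ k⁻¹ := by
  have h1 := ha.left hU (delta a⁻¹)
  rw [lam_delta, mul_inv_cancel, hU.1] at h1
  have h2 := congrArg (fun f => ((c⁻¹ : Circle) : ℂ) • lam k⁻¹ f) h1
  simp only [map_smul, lam_delta, mul_one, smul_smul] at h2
  rw [← Circle.coe_mul, inv_mul_cancel, Circle.coe_one, one_smul, ← lam_mul, inv_mul_cancel,
    lam_one] at h2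
  exact h2.symm

theorem Glk.pow (hU : IsStdIso U) {a : Γ} {c : Circle} {k : Λ} (ha : Glk U a c k) (N : ℕ) :
    Glk U (a ^ N) (c ^ N) (k ^ N) := by
  induction N with
  | zero =>
    rw [pow_zero, pow_zero, pow_zero]
    exact Glk.one hU
  | succ N ih =>
    rw [pow_succ, pow_succ, pow_succ]
    exact ih.mul hU ha

theorem Glk.right (hU : IsStdIso U) {b : Γ} {d : Circle} {l : Λ} (h : Glk U b d l) (f : L2 Γ) :
    U (rho b f) = ((d⁻¹ : Circle) : ℂ) • rho l (U f) := by
  have hcomm : ∀ (x : Λ) (f : L2 Λ), U (rho b (U.symm (lam x f))) =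
      lam x (U (rho b (U.symm f))) := by
    intro x f
    have h1 : InVN (th U.symm (tl (lam x))) := inVN_th hU.symm x
    have h2 := h1 b (U.symm f)
    rw [th_apply, th_apply, U.symm_symm, U.apply_symm_apply] at h2
    have h3 := congrArg U h2
    rw [U.apply_symm_apply] at h3
    exact h3.symm
  have h1 := ext_delta (T := (tl U).comp ((tl (rho b)).comp (tl U.symm)))
    (S := ((d⁻¹ : Circle) : ℂ) • tl (rho l)) (fun x => ?_) (U f)
  · have h2 : U (rho b (U.symm (U f))) = ((d⁻¹ : Circle) : ℂ) • rho l (U f) := h1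
    rwa [U.symm_apply_apply] at h2
  · show U (rho b (U.symm (delta x))) = ((d⁻¹ : Circle) : ℂ) • rho l (delta x)
    have h2 : (delta x : L2 Λ) = lam x (delta 1) := by rw [lam_delta, mul_one]
    have h3 : U (delta b⁻¹) = ((d⁻¹ : Circle) : ℂ) • delta l⁻¹ := h.inv hU
    rw [h2, hcomm, hU.symm_one, rho_delta, one_mul, h3, map_smul, rho_lam, rho_delta, one_mul]

theorem Glk.norm_two (hU : IsStdIso U) {a b : Γ} {c d : Circle} {k l : Λ} (ha : Glk U a c k)
    (hb : Glk U b d l) {x : Γ} (hx : a * x * b⁻¹ = x) (y : Λ) :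
    ‖U (delta x) (k * y * l⁻¹)‖ = ‖U (delta x) y‖ := by
  have h1 : (delta x : L2 Γ) = lam a (rho b (delta x)) := by
    rw [rho_delta, lam_delta, ← mul_assoc, hx]
  conv_lhs => rw [h1]
  rw [ha.left hU, hb.right hU, map_smul, lp.coeFn_smul, lp.coeFn_smul, Pi.smul_apply,
    Pi.smul_apply, norm_smul, norm_smul, Circle.norm_coe, Circle.norm_coe, one_mul, one_mul,
    lam_apply, rho_apply]
  congr 2
  group

/-- an orbit on which a square summable function is constant and nonzero is finite -/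
theorem exists_period {f : L2 Λ} {σ : Λ → Λ} (hσ : Function.Injective σ)
    (hf : ∀ y, ‖f (σ y)‖ = ‖f y‖) {y : Λ} (hy : f y ≠ 0) : ∃ N : ℕ, 1 ≤ N ∧ σ^[N] y = y := by
  have hsum : Summable fun x => ‖f x‖ ^ (2 : ENNReal).toReal :=
    (memℓp_gen_iff (p := 2) (by norm_num)).1 f.2
  have hfin : {x | ‖f y‖ ≤ ‖f x‖}.Finite := by
    have h1 := hsum.tendsto_cofinite_zero
    have h2 : (0 : ℝ) < ‖f y‖ ^ (2 : ENNReal).toReal := Real.rpow_pos_of_pos (norm_pos_iff.2 hy) _
    have h3 := h1.eventually_lt_const h2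
    rw [Filter.eventually_cofinite] at h3
    refine h3.subset fun x hx => ?_
    show ¬ ‖f x‖ ^ (2 : ENNReal).toReal < ‖f y‖ ^ (2 : ENNReal).toReal
    rw [not_lt]
    exact Real.rpow_le_rpow (norm_nonneg _) hx (by norm_num)
  have hit : ∀ n : ℕ, ‖f (σ^[n] y)‖ = ‖f y‖ := by
    intro n
    induction n with
    | zero => rfl
    | succ n ih => rw [Function.iterate_succ_apply', hf, ih]
  have hnot : ¬ Function.Injective fun n : ℕ => σ^[n] y := by
    intro hinj
    refine Set.infinite_range_of_injective hinj (hfin.subset ?_)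
    rintro _ ⟨n, rfl⟩
    exact (hit n).ge
  have key : ∀ n m : ℕ, n < m → σ^[n] y = σ^[m] y → ∃ N : ℕ, 1 ≤ N ∧ σ^[N] y = y := by
    intro n m hnm h
    refine ⟨m - n, by omega, ?_⟩
    have h1 : σ^[m] y = σ^[n] (σ^[m - n] y) := by
      rw [← Function.iterate_add_apply]
      congr 1
      omega
    rw [h1] at h
    exact ((hσ.iterate n) h).symm
  rw [Function.Injective] at hnot
  push Not at hnot
  obtain ⟨n, m, h, hne⟩ := hnot
  rcases lt_or_gt_of_ne hne with h1 | h1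
  · exact key n m h1 h
  · exact key m n h1 h.symm

theorem iterate_two (k l y : Λ) (M : ℕ) :
    (fun y => k * y * l⁻¹)^[M] y = k ^ M * y * (l ^ M)⁻¹ := by
  induction M with
  | zero => simp
  | succ M ih =>
    rw [Function.iterate_succ_apply', ih, pow_succ' k, pow_succ' l]
    group

theorem periodic (hU : IsStdIso U) {a b : Γ} {c d : Circle} {k l : Λ} (ha : Glk U a c k)
    (hb : Glk U b d l) {x : Γ} (hx : a * x * b⁻¹ = x) {y : Λ} (hy : U (delta x) y ≠ 0) :
    ∃ M : ℕ, 1 ≤ M ∧ k ^ M * y = y * l ^ M := by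
  obtain ⟨M, hM, h⟩ := exists_period (σ := fun y => k * y * l⁻¹)
    (fun y z hyz => by
      have h1 : k * y * l⁻¹ = k * z * l⁻¹ := hyz
      exact mul_left_cancel (mul_right_cancel h1)) (fun y => ha.norm_two hU hb hx y) hy
  refine ⟨M, hM, ?_⟩
  rw [iterate_two, mul_inv_eq_iff_eq_mul] at h
  exact h

/-- the elements commuting with a power of every element of `S` -/
def vc (S : Set Γ) : Set Γ := {x | ∀ b ∈ S, ∃ N : ℕ, 1 ≤ N ∧ b ^ N * x = x * b ^ N}

/-- the elements of `Λ` commuting with a power of every element belonging to an element of `S` -/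
def vcL (U : L2 Γ ≃ₗᵢ[ℂ] L2 Λ) (S : Set Γ) : Subgroup Λ where
  carrier := {z | ∀ b ∈ S, ∀ d l, Glk U b d l → ∃ N : ℕ, 1 ≤ N ∧ l ^ N * z = z * l ^ N}
  one_mem' := fun b _ d l _ => ⟨1, le_rfl, by rw [mul_one, one_mul]⟩
  mul_mem' := by
    intro z z' hz hz' b hb d l hl
    obtain ⟨N, hN, h⟩ := hz b hb d l hl
    obtain ⟨N', hN', h'⟩ := hz' b hb d l hl
    refine ⟨N * N', Nat.mul_pos hN hN', ?_⟩
    have h1 : Commute (l ^ (N * N')) z := by
      rw [pow_mul]
      exact (show Commute (l ^ N) z from h).pow_left N'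
    have h2 : Commute (l ^ (N * N')) z' := by
      rw [mul_comm N, pow_mul]
      exact (show Commute (l ^ N') z' from h').pow_left N
    exact h1.mul_right h2
  inv_mem' := by
    intro z hz b hb d l hl
    obtain ⟨N, hN, h⟩ := hz b hb d l hl
    exact ⟨N, hN, (show Commute (l ^ N) z from h).inv_right⟩

/-- `U` maps the vectors supported on `H` onto the vectors supported on `K` -/
def Compat (U : L2 Γ ≃ₗᵢ[ℂ] L2 Λ) (H : Set Γ) (K : Subgroup Λ) : Prop :=
  (∀ h ∈ H, ∀ y, U (delta h) y ≠ 0 → y ∈ K) ∧ ∀ k ∈ K, ∀ x, U.symm (delta k) x ≠ 0 → x ∈ H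

theorem Glk.symm' {a : Γ} {c : Circle} {k : Λ} (h : Glk U a c k) : Glk U.symm k c⁻¹ a := by
  have h1 := congrArg U.symm h
  rw [U.symm_apply_apply, map_smul] at h1
  unfold Glk
  rw [h1, smul_smul, ← Circle.coe_mul, inv_mul_cancel, Circle.coe_one, one_smul]

theorem Glk.unique {a : Γ} {c d : Circle} {k l : Λ} (h : Glk U a c k) (h' : Glk U a d l) : k = l := by
  classical
  by_contra hkl
  have h1 := congrArg (fun f : L2 Λ => f k) (Eq.trans (Eq.symm h) h' : (c : ℂ) • (delta k : L2 Λ) = _)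
  simp only [lp.coeFn_smul, Pi.smul_apply, delta_apply, if_pos, if_neg hkl, smul_eq_mul, mul_one,
    mul_zero] at h1
  exact Circle.coe_ne_zero c h1

theorem compat_vc (hU : IsStdIso U) {S : Set Γ} (hS : ∀ b ∈ S, ∃ c k, Glk U b c k) :
    Compat U (vc S) (vcL U S) := by
  constructor
  · intro h hh y hy b hb d l hl
    obtain ⟨N, hN, hc⟩ := hh b hb
    obtain ⟨M, hM, hper⟩ := periodic hU (hl.pow hU N) (hl.pow hU N) (x := h)
      (by rw [hc, mul_inv_cancel_right]) hy
    rw [← pow_mul] at hper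
    exact ⟨N * M, Nat.mul_pos hN hM, hper⟩
  · intro k hk x hx b hb
    obtain ⟨d, l, hl⟩ := hS b hb
    obtain ⟨N, hN, hc⟩ := hk b hb d l hl
    obtain ⟨M, hM, hper⟩ := periodic hU.symm (hl.symm'.pow hU.symm N) (hl.symm'.pow hU.symm N)
      (x := k) (by rw [hc, mul_inv_cancel_right]) hx
    rw [← pow_mul] at hper
    exact ⟨N * M, Nat.mul_pos hN hM, hper⟩

theorem eq_one_of_supp (hU : IsStdIso U) {k : Λ} (h : ∀ x, U.symm (delta k) x ≠ 0 → x = 1) :
    k = 1 := by
  classical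
  by_contra hk
  have h1 : U.symm (delta k) = (U.symm (delta k) 1) • (delta 1 : L2 Γ) := by
    apply L2ext
    intro x
    rw [lp.coeFn_smul, Pi.smul_apply, delta_apply]
    by_cases hx : x = 1
    · rw [if_pos hx, hx, smul_eq_mul, mul_one]
    · rw [if_neg hx, smul_zero]
      by_contra hne
      exact hx (h x hne)
  have h2 := congrArg U h1
  rw [U.apply_symm_apply, map_smul, hU.1] at h2
  have h3 := congrArg (fun f : L2 Λ => f k) h2
  simp only [lp.coeFn_smul, Pi.smul_apply, delta_apply, if_pos, if_neg hk, smul_eq_mul,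
    mul_zero] at h3
  exact one_ne_zero h3

theorem Compat.inter_trivial (hU : IsStdIso U) {H₁ H₂ : Set Γ} {K₁ K₂ : Subgroup Λ}
    (h₁ : Compat U H₁ K₁) (h₂ : Compat U H₂ K₂) (h : ∀ x ∈ H₁, x ∈ H₂ → x = 1) {k : Λ}
    (hk₁ : k ∈ K₁) (hk₂ : k ∈ K₂) : k = 1 :=
  eq_one_of_supp hU fun x hx => h x (h₁.2 k hk₁ x hx) (h₂.2 k hk₂ x hx)

theorem exists_supp (g : Γ) : ∃ k, U (delta g) k ≠ 0 := by
  by_contra hcon
  push Not at hcon
  have h1 : U (delta g) = 0 := L2ext hcon
  have h2 : ‖U (delta g)‖ = 1 := by rw [LinearIsometryEquiv.norm_map, norm_delta]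
  rw [h1, norm_zero] at h2
  exact zero_ne_one h2

theorem gl_of_single {g : Γ} (h : ∀ k k', U (delta g) k ≠ 0 → U (delta g) k' ≠ 0 → k = k') :
    ∃ c k, Glk U g c k := by
  classical
  obtain ⟨k, hk⟩ := exists_supp (U := U) g
  have h1 : U (delta g) = (U (delta g) k) • (delta k : L2 Λ) := by
    apply L2ext
    intro x
    rw [lp.coeFn_smul, Pi.smul_apply, delta_apply]
    by_cases hx : x = k
    · rw [if_pos hx, hx, smul_eq_mul, mul_one]
    · rw [if_neg hx, smul_zero]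
      by_contra hne
      exact hx (h x k hne hk)
  have h2 : ‖U (delta g) k‖ = 1 := by
    have h3 : ‖U (delta g)‖ = 1 := by rw [LinearIsometryEquiv.norm_map, norm_delta]
    rw [h1, norm_smul, norm_delta, mul_one] at h3
    exact h3
  exact ⟨⟨U (delta g) k, mem_sphere_zero_iff_norm.2 h2⟩, k, h1⟩

/-- **The three subgroups lemma.** -/
theorem gl_of_compat (hU : IsStdIso U) {H₁ H₂ H₃ : Set Γ} {K₁ K₂ K₃ : Subgroup Λ}
    (h₁ : Compat U H₁ K₁) (h₂ : Compat U H₂ K₂) (h₃ : Compat U H₃ K₃)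
    (h12 : ∀ x ∈ H₁, x ∈ H₂ → x = 1) (h13 : ∀ x ∈ H₁, x ∈ H₃ → x = 1)
    {g₁ g₂ : Γ} (hg₁ : g₁ ∈ H₁) (hg₂ : g₂ ∈ H₂) (hg₃ : g₁ * g₂ ∈ H₃) : ∃ c k, Glk U g₁ c k := by
  obtain ⟨l₀, hl₀⟩ := exists_supp (U := U) g₂
  have key : ∀ k, U (delta g₁) k ≠ 0 → k * l₀ ∈ K₃ := by
    intro k hk
    refine h₃.1 _ hg₃ _ ?_
    have hkK := h₁.1 _ hg₁ _ hk
    have h4 := apply_hasSum (th U (tl (lam g₁))) (U (delta g₂)) (k * l₀)
    rw [th_lam_apply, lam_delta] at h4
    have h5 : ∀ l, l ≠ l₀ →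
        U (delta g₂) l * th U (tl (lam g₁)) (delta l) (k * l₀) = 0 := by
      intro l hl
      rw [(inVN_th hU g₁).delta_apply', th_lam_delta hU]
      by_contra hne
      have h6 := left_ne_zero_of_mul hne
      have h7 := right_ne_zero_of_mul hne
      have h8 := h₂.1 _ hg₂ _ h6
      have h9 := h₁.1 _ hg₁ _ h7
      have h10 : l₀ * l⁻¹ ∈ K₁ := by
        have := K₁.mul_mem (K₁.inv_mem hkK) h9
        rwa [mul_assoc, inv_mul_cancel_left] at this
      have h11 : l₀ * l⁻¹ ∈ K₂ := K₂.mul_mem (h₂.1 _ hg₂ _ hl₀) (K₂.inv_mem h8)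
      exact hl (mul_inv_eq_one.1 (h₁.inter_trivial hU h₂ h12 h10 h11)).symm
    have h6 := h4.unique (hasSum_single l₀ h5)
    rw [h6, (inVN_th hU g₁).delta_apply', th_lam_delta hU, mul_inv_cancel_right]
    exact mul_ne_zero hl₀ hk
  refine gl_of_single fun k k' hk hk' => ?_
  have h1 : k * k'⁻¹ ∈ K₁ := K₁.mul_mem (h₁.1 _ hg₁ _ hk) (K₁.inv_mem (h₁.1 _ hg₁ _ hk'))
  have h2 : k * k'⁻¹ ∈ K₃ := by
    have h3 := K₃.mul_mem (key k hk) (K₃.inv_mem (key k' hk'))
    have h4 : k * l₀ * (k' * l₀)⁻¹ = k * k'⁻¹ := by group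
    rwa [h4] at h3
  exact mul_inv_eq_one.1 (h₁.inter_trivial hU h₃ h13 h1 h2)

/-- **The commensuration lemma.** -/
theorem gl_of_conj (hU : IsStdIso U) {g : Γ} {S : Set Γ}
    (hS : ∀ b ∈ S, (∃ c k, Glk U b c k) ∧ ∃ c k, Glk U (g * b * g⁻¹) c k)
    (hc : ∀ x ∈ vc S, x = 1) : ∃ c k, Glk U g c k := by
  refine gl_of_single fun y y' hy hy' => ?_
  have hcomp := compat_vc hU (S := S) fun b hb => (hS b hb).1
  have h1 : y'⁻¹ * y ∈ vcL U S := by
    intro b hb d l hl
    obtain ⟨-, c', k', hk'⟩ := hS b hb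
    have hx : g * b * g⁻¹ * g * b⁻¹ = g := by group
    obtain ⟨M, hM, h⟩ := periodic hU hk' hl hx hy
    obtain ⟨M', hM', h'⟩ := periodic hU hk' hl hx hy'
    refine ⟨M * M', Nat.mul_pos hM hM', ?_⟩
    have h2 : k' ^ (M * M') * y = y * l ^ (M * M') := by
      rw [pow_mul, pow_mul]
      exact (show SemiconjBy y (l ^ M) (k' ^ M) from h.symm).pow_right M' |>.symm
    have h3 : k' ^ (M * M') * y' = y' * l ^ (M * M') := by
      rw [mul_comm M, pow_mul, pow_mul]
      exact (show SemiconjBy y' (l ^ M') (k' ^ M') from h'.symm).pow_right M |>.symm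
    have h4 : k' ^ (M * M') = y' * l ^ (M * M') * y'⁻¹ := eq_mul_inv_of_mul_eq h3
    rw [h4] at h2
    have h5 : l ^ (M * M') * (y'⁻¹ * y) = y'⁻¹ * (y' * l ^ (M * M') * y'⁻¹ * y) := by group
    rw [h5, h2, mul_assoc]
  have h2 : y'⁻¹ * y = 1 := eq_one_of_supp hU fun x hx => hc x (hcomp.2 _ h1 x hx)
  exact (inv_mul_eq_one.1 h2).symm

/-- **A group-like isomorphism is given by an isomorphism of groups.** -/
theorem exists_equiv (hU : IsStdIso U) (h : ∀ g, ∃ c k, Glk U g c k) :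
    ∃ (π : Γ ≃* Λ) (χ : Γ →* Circle), ∀ g f, U (lam g f) = (χ g : ℂ) • lam (π g) (U f) := by
  classical
  choose c k hck using h
  let π₀ : Γ →* Λ :=
    { toFun := k
      map_one' := (hck 1).unique (Glk.one hU)
      map_mul' := fun a b => (hck _).unique ((hck a).mul hU (hck b)) }
  have hcoef : ∀ {g : Γ} {c d : Circle} {k : Λ}, Glk U g c k → Glk U g d k → c = d := by
    intro g c d k h h'
    have h1 := congrArg (fun f : L2 Λ => f k) (Eq.trans (Eq.symm h) h' : (c : ℂ) • (delta k : L2 Λ) = _)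
    simp only [lp.coeFn_smul, Pi.smul_apply, delta_apply, if_pos, smul_eq_mul, mul_one] at h1
    exact Circle.coe_injective h1
  let χ : Γ →* Circle :=
    { toFun := c
      map_one' := by
        have h1 := Glk.one hU
        rw [← (hck 1).unique h1] at h1
        exact hcoef (hck 1) h1
      map_mul' := fun a b => by
        have h1 := (hck a).mul hU (hck b)
        rw [← (hck (a * b)).unique h1] at h1
        exact hcoef (hck _) h1 }
  have hinj : Function.Injective π₀ := by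
    rw [injective_iff_map_eq_one]
    intro g hg
    have h1 := (hck g).symm'
    have h2 : k g = 1 := hg
    rw [h2] at h1
    exact h1.unique (Glk.one hU.symm)
  have hsurj : Function.Surjective π₀ := by
    intro l
    by_contra hl
    push Not at hl
    have h1 : U.symm (delta l) = 0 := by
      apply L2ext
      intro g
      rw [← inner_delta, ← LinearIsometryEquiv.inner_map_map U, U.apply_symm_apply, hck g,
        inner_smul_left, inner_delta, delta_apply]
      have h5 : ¬ k g = l := hl g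
      rw [if_neg h5, mul_zero]
      rfl
    have h2 : ‖U.symm (delta l)‖ = 1 := by rw [LinearIsometryEquiv.norm_map, norm_delta]
    rw [h1, norm_zero] at h2
    exact zero_ne_one h2
  exact ⟨MulEquiv.ofBijective π₀ ⟨hinj, hsurj⟩, χ, fun g f => (hck g).left hU f⟩

theorem MapsSub.compat (hU : IsStdIso U) {H : Set Γ} {K : Subgroup Λ} (h : MapsSub U H K) :
    Compat U H K := by
  classical
  constructor
  · intro g hg y hy
    by_contra hyK
    have h1 := (h (tl (lam g)) (inVN_lam g)).1 (fun x hx => ?_) y hyK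
    · rw [hU.symm_one] at h1
      have h2 : U (lam g (delta 1)) y = 0 := h1
      rw [lam_delta, mul_one] at h2
      exact hy h2
    · show lam g (delta 1) x = 0
      rw [lam_delta, mul_one, delta_apply, if_neg]
      rintro rfl
      exact hx hg
  · intro k hk x hx
    by_contra hxH
    have h1 := (h (th U.symm (tl (lam k))) (inVN_th hU.symm k)).2 (fun y hy => ?_) x hxH
    · rw [th_lam_delta hU.symm] at h1
      exact hx h1
    · rw [hU.symm_one, th_lam_delta hU.symm, U.apply_symm_apply, delta_apply, if_neg]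
      rintro rfl
      exact hy hk

end Pool.Agent.K4H1.VN
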