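import Pool.Agent.K4H1.VN.RelIso
import Pool.Agent.K4H1.VN.Apx

/-!
# Almost group-like on a subgroup with property (T): the abstract form
-/

set_option autoImplicit false

namespace Pool.Agent.K4H1.VN

open scoped ComplexConjugate InnerProductSpace
open Pool.Agent.Y276.Rig Filter Topology

variable {Γ Λ Δ : Type} [Group Γ] [Group Λ] [Group Δ]

/-- the unitaries `U λ_g U⁻¹` -/
noncomputable def cv (U : L2 Γ ≃ₗᵢ[ℂ] L2 Λ) : Γ →* (L2 Λ ≃ₗᵢ[ℂ] L2 Λ) where
  toFun g := (U.symm.trans (lam g)).trans U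
  map_one' := by
    apply LinearIsometryEquiv.ext
    intro f
    show U (lam 1 (U.symm f)) = f
    rw [lam_one, U.apply_symm_apply]
  map_mul' g h := by
    apply LinearIsometryEquiv.ext
    intro f
    show U (lam (g * h) (U.symm f)) = U (lam g (U.symm (U (lam h (U.symm f)))))
    rw [U.symm_apply_apply, lam_mul]

theorem cv_apply (U : L2 Γ ≃ₗᵢ[ℂ] L2 Λ) (g : Γ) (f : L2 Λ) : cv U g f = U (lam g (U.symm f)) := rfl

theorem cv_inVN {U : L2 Γ ≃ₗᵢ[ℂ] L2 Λ} (hU : IsSpatialIso U) (g : Γ) : InVN (cv U g) :=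
  (hU (tl (lam g))).1 (inVN_lam g)

theorem cv_U (U : L2 Γ ≃ₗᵢ[ℂ] L2 Λ) (g : Γ) (f : L2 Γ) : cv U g (U f) = U (lam g f) := by
  rw [cv_apply, U.symm_apply_apply]

theorem rel_main [Group.IsFinitelyPresented Δ] (hT : PropertyT Δ) :
    ∃ (B : Finset Δ) (ε : ℝ), 0 < ε ∧ ∀ (Γ Λ : Type) [Group Γ] [Group Λ] (j : Δ →* Γ)
      (U : L2 Γ ≃ₗᵢ[ℂ] L2 Λ), RelIcc j → IsSpatialIso U →
      (∀ k ∈ B, ∃ h : Λ, 1 - ε < ‖cv U (j k) (delta 1) h‖) →
      ∃ (π : Δ →* Λ) (χ : Δ →* Circle) (w T : L2 Λ ≃ₗᵢ[ℂ] L2 Λ), InVN w ∧ InVN' T ∧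
        T (delta 1) = w (delta 1) ∧
        ∀ k f, cv U (j k) (w f) = (χ k : ℂ) • w (lam (π k) f) := by
  obtain ⟨B, ε, hε, hB⟩ := exists_intertwiner (Γ := Δ) hT
  refine ⟨B, ε, hε, fun Γ Λ _ _ j U hj hU hU' => ?_⟩
  obtain ⟨π, χ, η, hη0, hη⟩ := hB Λ ((cv U).comp j) (fun k => cv_inVN hU (j k)) hU'
  have hη' : ∀ k, cv U (j k) (rho (π k) η) = (χ k : ℂ) • η := hη
  have hn : ‖η‖ ≠ 0 := norm_ne_zero_iff.2 hη0
  have hη1 : ‖((‖η‖⁻¹ : ℝ) : ℂ) • η‖ = 1 := by
    rw [norm_smul, Complex.norm_real, norm_inv, norm_norm, inv_mul_cancel₀ hn]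
  have hη2 : ∀ k, cv U (j k) (rho (π k) (((‖η‖⁻¹ : ℝ) : ℂ) • η)) =
      (χ k : ℂ) • (((‖η‖⁻¹ : ℝ) : ℂ) • η) := by
    intro k
    rw [map_smul, map_smul, hη', smul_comm]
  obtain ⟨w, T, hw, hT, h1, h2⟩ := iso_case_rel hj (cv_inVN hU) (cv_U U) hU hη1 hη2
  exact ⟨π, χ, w, T, hw, hT, h1, h2⟩

section twist

variable {U : L2 Γ ≃ₗᵢ[ℂ] L2 Λ} {w T : L2 Λ ≃ₗᵢ[ℂ] L2 Λ}

theorem symm_inVN (hw : InVN w) (g : Λ) (f : L2 Λ) : w.symm (rho g f) = rho g (w.symm f) := by
  apply w.injective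
  rw [w.apply_symm_apply, hw, w.apply_symm_apply]

theorem symm_inVN' (hT : InVN' T) (g : Λ) (f : L2 Λ) : T.symm (lam g f) = lam g (T.symm f) := by
  apply T.injective
  rw [T.apply_symm_apply, hT, T.apply_symm_apply]

theorem cv_comm (hU : IsSpatialIso U) (hT : InVN' T) (g : Γ) (f : L2 Λ) :
    T (cv U g f) = cv U g (T f) := by
  have h1 : InVN (clm (cv U g)) := cv_inVN hU g
  have h2 : InVN' (clm T) := hT
  exact (commutation h1 h2 f).symm

theorem spatial_twist (hU : IsSpatialIso U) (hw : InVN w) (hT : InVN' T) :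
    IsSpatialIso ((U.trans T).trans w.symm) := by
  intro X
  have hTs : InVN' (clm T.symm) := fun g f => symm_inVN' hT g f
  have hT' : InVN' (clm T) := hT
  rw [hU X]
  constructor
  · intro hX g f
    have hX' : InVN (conjU U X) := hX
    have h2 : ∀ f, U (X (U.symm (T.symm f))) = T.symm (U (X (U.symm f))) := fun f =>
      commutation hX' hTs f
    show w.symm (T (U (X (U.symm (T.symm (w (rho g f))))))) =
      rho g (w.symm (T (U (X (U.symm (T.symm (w f)))))))
    rw [h2, h2, T.apply_symm_apply, T.apply_symm_apply, hw]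
    have h3 : U (X (U.symm (rho g (w f)))) = rho g (U (X (U.symm (w f)))) := hX g (w f)
    rw [h3, symm_inVN hw]
  · intro hX
    have hX' : ∀ g f, w.symm (T (U (X (U.symm (T.symm (w (rho g f))))))) =
      rho g (w.symm (T (U (X (U.symm (T.symm (w f))))))) := hX
    have hZ : InVN (conjU (U.trans T) X) := by
      intro g f
      show T (U (X (U.symm (T.symm (rho g f))))) = rho g (T (U (X (U.symm (T.symm f)))))
      have h2 := congrArg w (hX' g (w.symm f))
      rw [w.apply_symm_apply, hw, hw, w.apply_symm_apply, w.apply_symm_apply] at h2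
      exact h2
    have h3 : ∀ f, U (X (U.symm f)) = conjU (U.trans T) X f := by
      intro f
      have h4 : conjU (U.trans T) X (T f) = T (conjU (U.trans T) X f) := commutation hZ hT' f
      have h5 : conjU (U.trans T) X (T f) = T (U (X (U.symm f))) := by
        show T (U (X (U.symm (T.symm (T f))))) = _
        rw [T.symm_apply_apply]
      rw [h5] at h4
      exact T.injective h4
    intro g f
    show U (X (U.symm (rho g f))) = rho g (U (X (U.symm f)))
    rw [h3, h3]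
    exact hZ g f

theorem stdIso_twist (hU : IsStdIso U) (hw : InVN w) (hT : InVN' T)
    (h1 : T (delta 1) = w (delta 1)) : IsStdIso ((U.trans T).trans w.symm) := by
  refine ⟨?_, spatial_twist hU.2 hw hT⟩
  show w.symm (T (U (delta 1))) = delta 1
  rw [hU.1, h1, w.symm_apply_apply]

/-- group-like at `g` after the twist -/
theorem twist_apply (hU : IsSpatialIso U) (hT : InVN' T) {g : Γ} {c : Circle} {k : Λ}
    (h : ∀ f, cv U g (w f) = (c : ℂ) • w (lam k f)) (f : L2 Γ) :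
    ((U.trans T).trans w.symm) (lam g f) = (c : ℂ) • lam k (((U.trans T).trans w.symm) f) := by
  show w.symm (T (U (lam g f))) = (c : ℂ) • lam k (w.symm (T (U f)))
  rw [← cv_U, cv_comm hU hT]
  have h1 : T (U f) = w (w.symm (T (U f))) := (w.apply_symm_apply _).symm
  conv_lhs => rw [h1]
  rw [h, map_smul, w.symm_apply_apply]

/-- and back -/
theorem twist_back (hU : IsSpatialIso U) (hT : InVN' T) {g : Γ} {c : Circle} {k : Λ}
    (h : ∀ f, ((U.trans T).trans w.symm) (lam g f) =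
      (c : ℂ) • lam k (((U.trans T).trans w.symm) f)) (f : L2 Λ) :
    U (lam g (U.symm (w f))) = (c : ℂ) • w (lam k f) := by
  have h1 : w.symm (T (U (lam g (U.symm (T.symm (w f)))))) =
      (c : ℂ) • lam k (w.symm (T (U (U.symm (T.symm (w f)))))) := h (U.symm (T.symm (w f)))
  rw [U.apply_symm_apply, T.apply_symm_apply, w.symm_apply_apply] at h1
  have h2 := congrArg w h1
  rw [w.apply_symm_apply, map_smul] at h2
  rw [← h2]
  show cv U g (w f) = T (cv U g (T.symm (w f)))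
  rw [cv_comm hU hT, T.apply_symm_apply]

end twist

/-- a homomorphism of `Δ` that is trivial where `j` is -/
theorem ker_eq {j : Δ →* Γ} {U : L2 Γ ≃ₗᵢ[ℂ] L2 Λ} (hU : IsStdIso U)
    {π : Δ →* Λ} {χ : Δ →* Circle} {w T : L2 Λ ≃ₗᵢ[ℂ] L2 Λ} (hw : InVN w) (hT : InVN' T)
    (h1 : T (delta 1) = w (delta 1))
    (h : ∀ k f, cv U (j k) (w f) = (χ k : ℂ) • w (lam (π k) f)) (k : Δ) : j k = 1 ↔ π k = 1 := by
  classical
  have hU' := stdIso_twist hU hw hT h1
  have h2 := twist_apply hU.2 hT (h k) (delta 1)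
  rw [hU'.1, lam_delta, lam_delta, mul_one, mul_one] at h2
  constructor
  · intro hk
    rw [hk, hU'.1] at h2
    have h3 := congrArg (fun f : L2 Λ => f 1) h2
    simp only [lp.coeFn_smul, Pi.smul_apply, delta_apply, if_pos, smul_eq_mul] at h3
    by_contra hne
    rw [if_neg (Ne.symm hne), mul_zero] at h3
    exact one_ne_zero h3
  · intro hk
    rw [hk] at h2
    have h3 : (delta (j k) : L2 Γ) = (χ k : ℂ) • delta 1 := by
      apply ((U.trans T).trans w.symm).injective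
      rw [h2, map_smul, hU'.1]
    have h4 := congrArg (fun f : L2 Γ => f (j k)) h3
    simp only [lp.coeFn_smul, Pi.smul_apply, delta_apply, if_pos, smul_eq_mul] at h4
    by_contra hne
    rw [if_neg hne, mul_zero] at h4
    exact one_ne_zero h4

/-- **The standard form** of an isomorphism. -/
theorem exists_std (hicc : IsIcc Γ) {U : L2 Γ ≃ₗᵢ[ℂ] L2 Λ} (hU : IsSpatialIso U) :
    ∃ U₀ : L2 Γ ≃ₗᵢ[ℂ] L2 Λ, IsStdIso U₀ ∧ ∀ g f, cv U₀ g f = cv U g f := by
  obtain ⟨T, hT₀, hT⟩ := exists_unitary (v := cv U) (cv_U U) hU (norm_delta (1 : Λ))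
    (fun g hg => by
      rw [inner_delta]
      exact trace_zero hicc (cv_inVN hU) (cv_U U) hg)
  have hT' : InVN' T := hT
  refine ⟨U.trans T, ⟨?_, ?_⟩, fun g f => ?_⟩
  · show T (U (delta 1)) = delta 1
    rw [hT₀, map_one]
    rfl
  · have h1 := spatial_twist (w := LinearIsometryEquiv.refl ℂ (L2 Λ)) hU (fun g f => rfl) hT'
    exact h1
  · show T (cv U g (T.symm f)) = cv U g f
    rw [cv_comm hU hT', T.apply_symm_apply]

end Pool.Agent.K4H1.VN
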