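import Pool.Agent.K4H1.VN.Fin
import Pool.Agent.K4H1.VN.Mx

/-!
# Isomorphisms which are group-like on a subgroup with infinite relative conjugacy classes
-/

set_option autoImplicit false

namespace Pool.Agent.K4H1.VN

open scoped ComplexConjugate InnerProductSpace
open Pool.Agent.Y276.Rig Filter Topology

variable {Γ Λ Δ : Type} [Group Γ] [Group Λ] [Group Δ]

/-- every nontrivial element of `Γ` has infinitely many conjugates by elements of the image of `j` -/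
def RelIcc (j : Δ →* Γ) : Prop :=
  ∀ x : Γ, x ≠ 1 → {y : Γ | ∃ k : Δ, y = j k * x * (j k)⁻¹}.Infinite

theorem RelIcc.isIcc {j : Δ →* Γ} (h : RelIcc j) : IsIcc Γ := fun x hx =>
  (h x hx).mono (by rintro y ⟨k, rfl⟩; exact ⟨j k, rfl⟩)

theorem icc_zero_rel {j : Δ →* Γ} (hicc : RelIcc j) {F : Γ → ℂ}
    (hF : ∀ g k, F (j k * g * (j k)⁻¹) = F g) (h0 : Tendsto F cofinite (𝓝 0)) {g : Γ}
    (hg : g ≠ 1) : F g = 0 := by
  by_contra hne
  have h1 : ∀ᶠ y in cofinite, ‖F y‖ < ‖F g‖ := by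
    have h2 := h0.norm
    rw [norm_zero] at h2
    exact h2.eventually_lt_const (norm_pos_iff.2 hne)
  rw [Filter.eventually_cofinite] at h1
  refine hicc g hg (h1.subset ?_)
  rintro y ⟨k, rfl⟩
  show ¬ ‖F (j k * g * (j k)⁻¹)‖ < ‖F g‖
  rw [hF]
  exact lt_irrefl _

theorem adjoint_InVN {S : L2 Λ →L[ℂ] L2 Λ} (hS : InVN S) : InVN (ContinuousLinearMap.adjoint S) := by
  intro g f
  refine ext_inner_left ℂ fun x => ?_
  have h1 : ∀ (y z : L2 Λ), ⟪y, rho g z⟫_ℂ = ⟪rho g⁻¹ y, z⟫_ℂ := by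
    intro y z
    have h2 : y = rho g (rho g⁻¹ y) := by rw [← rho_mul, mul_inv_cancel, rho_one]
    conv_lhs => rw [h2]
    rw [LinearIsometryEquiv.inner_map_map]
  rw [ContinuousLinearMap.adjoint_inner_right, h1, h1, ContinuousLinearMap.adjoint_inner_right, hS]

/-- isometries of the group von Neumann algebra are unitary -/
theorem isometry_surj_left {S : L2 Λ →L[ℂ] L2 Λ} (hS : InVN S) (hiso : ∀ x, ‖S x‖ = ‖x‖)
    (y : L2 Λ) : S (ContinuousLinearMap.adjoint S y) = y := by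
  set A := ContinuousLinearMap.adjoint S with hA
  have hA' : InVN A := adjoint_InVN hS
  have h1 : ∀ x, A (S x) = x := by
    intro x
    have h2 := (ContinuousLinearMap.norm_map_iff_adjoint_comp_self S).1 hiso
    exact DFunLike.congr_fun h2 x
  have h2 : S (A (delta 1)) 1 = 1 := by
    classical
    rw [trace_comm hS hA', h1, delta_apply, if_pos rfl]
  have h3 : ‖A (delta 1)‖ ^ 2 = 1 := by
    have h4 : ⟪A (delta 1), A (delta 1)⟫_ℂ = 1 := by
      rw [hA, ContinuousLinearMap.adjoint_inner_left, inner_delta, ← hA, h2]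
    rw [inner_self_eq_norm_sq_to_K] at h4
    refine Complex.ofReal_injective ?_
    rw [Complex.ofReal_pow, Complex.ofReal_one]
    exact h4
  have h5 : S (A (delta 1)) = delta 1 := by
    rw [← sub_eq_zero, ← norm_eq_zero, ← sq_eq_zero_iff, norm_sub_sq (𝕜 := ℂ), hiso, h3,
      norm_delta, ← inner_conj_symm, inner_delta, h2]
    simp
    norm_num
  have h6 : ∀ a, S.comp A (delta a) = ContinuousLinearMap.id ℂ (L2 Λ) (delta a) := by
    intro a
    have h7 : (delta a : L2 Λ) = rho a⁻¹ (delta 1) := by rw [rho_delta, inv_inv, one_mul]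
    show S (A (delta a)) = delta a
    rw [h7, hA', hS, h5]
  exact ext_delta h6 y

section main

variable {v : Γ →* (L2 Λ ≃ₗᵢ[ℂ] L2 Λ)} {U : L2 Γ ≃ₗᵢ[ℂ] L2 Λ} {j : Δ →* Γ}

theorem inner_eta_rel (hicc : RelIcc j) (hv : ∀ g, InVN (v g))
    (hc0 : ∀ ξ ζ, Tendsto (fun g => ⟪ζ, v g ξ⟫_ℂ) cofinite (𝓝 0))
    {π : Δ →* Λ} {χ : Δ →* Circle} {η : L2 Λ} (hη : ∀ k, v (j k) (rho (π k) η) = (χ k : ℂ) • η)
    {g : Γ} (hg : g ≠ 1) : ⟪η, v g η⟫_ℂ = 0 := by
  refine icc_zero_rel hicc (F := fun g => ⟪η, v g η⟫_ℂ) (fun g k => ?_) (hc0 η η) hg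
  show ⟪η, v (j k * g * (j k)⁻¹) η⟫_ℂ = ⟪η, v g η⟫_ℂ
  have h1 : v (j k)⁻¹ η = ((χ k : ℂ))⁻¹ • rho (π k) η := by
    have h2 := hη k
    have h3 : v (j k)⁻¹ (v (j k) (rho (π k) η)) = rho (π k) η := by
      rw [← v_mul, inv_mul_cancel, v_one]
    rw [h2, map_smul] at h3
    rw [← h3, smul_smul, inv_mul_cancel₀ (Circle.coe_ne_zero _), one_smul]
  have h4 : ⟪η, v (j k * g * (j k)⁻¹) η⟫_ℂ = ⟪v (j k)⁻¹ η, v g (v (j k)⁻¹ η)⟫_ℂ := by
    rw [← v_mul, inner_v, inv_inv, mul_assoc]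
  rw [h4, h1, map_smul, inner_smul_left, inner_smul_right, hv g, LinearIsometryEquiv.inner_map_map,
    ← mul_assoc]
  have h5 : conj ((χ k : ℂ))⁻¹ * ((χ k : ℂ))⁻¹ = 1 := by
    rw [← Complex.normSq_eq_conj_mul_self, Complex.normSq_eq_norm_sq, norm_inv, Circle.norm_coe]
    simp
  rw [h5, one_mul]

/-- **The isomorphism case, relative to a subgroup.** -/
theorem iso_case_rel (hicc : RelIcc j) (hv : ∀ g, InVN (v g))
    (hU : ∀ g f, v g (U f) = U (lam g f))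
    (hiso : ∀ T : L2 Γ →L[ℂ] L2 Γ, InVN T ↔ InVN (conjU U T)) {π : Δ →* Λ} {χ : Δ →* Circle}
    {η : L2 Λ} (hη1 : ‖η‖ = 1) (hη : ∀ k, v (j k) (rho (π k) η) = (χ k : ℂ) • η) :
    ∃ w T : L2 Λ ≃ₗᵢ[ℂ] L2 Λ, InVN w ∧ InVN' T ∧ T (delta 1) = w (delta 1) ∧
      ∀ k f, v (j k) (w f) = (χ k : ℂ) • w (lam (π k) f) := by
  classical
  obtain ⟨T₀, hT₀, hT₀'⟩ := exists_unitary hU hiso (norm_delta (1 : Λ)) (fun g hg => by
    rw [inner_delta]
    exact trace_zero hicc.isIcc hv hU hg)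
  obtain ⟨T₁, hT₁, hT₁'⟩ := exists_unitary hU hiso hη1 (fun g hg =>
    inner_eta_rel hicc hv (c0_iso hU) hη hg)
  have hT₀1 := hT₀ 1
  have hT₁1 := hT₁ 1
  rw [v_one] at hT₀1 hT₁1
  let T : L2 Λ ≃ₗᵢ[ℂ] L2 Λ := T₀.symm.trans T₁
  have hTap : ∀ x, T x = T₁ (T₀.symm x) := fun x => rfl
  have hTd : T (delta 1) = η := by
    rw [hTap, ← hT₀1, T₀.symm_apply_apply, hT₁1]
  have hsymm : ∀ (A : L2 Λ ≃ₗᵢ[ℂ] L2 Λ), (∀ h x, A (lam h x) = lam h (A x)) →
      ∀ h x, A.symm (lam h x) = lam h (A.symm x) := by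
    intro A hA h x
    apply A.injective
    rw [A.apply_symm_apply, hA, A.apply_symm_apply]
  have hT' : ∀ h x, T (lam h x) = lam h (T x) := by
    intro h x
    rw [hTap, hTap, hsymm T₀ hT₀', hT₁']
  have hort : ∀ k : Λ, k ≠ 1 → ⟪η, rho k η⟫_ℂ = 0 := by
    intro k hk
    have h1 : ⟪η, rho k η⟫_ℂ = ⟪(delta 1 : L2 Λ), T.symm (rho k (T (delta 1)))⟫_ℂ := by
      rw [← hTd, ← LinearIsometryEquiv.inner_map_map T (delta 1), T.apply_symm_apply]
    rw [h1, inner_delta]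
    have h2 : InVN' ((clm T.symm).comp (clm (rho k))) := by
      intro h x
      show T.symm (rho k (lam h x)) = lam h (T.symm (rho k x))
      rw [rho_lam, hsymm T hT']
    have h3 : InVN' (clm T) := hT'
    have h4 := trace_comm' h2 h3
    have h5 : ((clm T.symm).comp (clm (rho k))) ((clm T) (delta 1)) =
        T.symm (rho k (T (delta 1))) := rfl
    have h6 : (clm T) (((clm T.symm).comp (clm (rho k))) (delta 1)) =
        T (T.symm (rho k (delta 1))) := rfl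
    rw [h5, h6, T.apply_symm_apply, rho_delta, delta_apply, one_mul, if_neg] at h4
    · exact h4
    · exact fun h => hk (inv_eq_one.1 h.symm)
  have hb : Orthonormal ℂ fun k : Λ => rho k⁻¹ η := by
    refine ⟨fun k => by rw [LinearIsometryEquiv.norm_map, hη1], fun k l hkl => ?_⟩
    show ⟪rho k⁻¹ η, rho l⁻¹ η⟫_ℂ = 0
    have h1 : rho l⁻¹ η = rho k⁻¹ (rho (k * l⁻¹) η) := by
      rw [← rho_mul, inv_mul_cancel_left]
    rw [h1, LinearIsometryEquiv.inner_map_map]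
    exact hort _ fun h => hkl (mul_inv_eq_one.1 h)
  have hvη : ∀ k, v (j k) η = (χ k : ℂ) • rho (π k)⁻¹ η := by
    intro k
    have h1 := hη k
    rw [hv (j k)] at h1
    rw [← map_smul, ← h1, rho_inv_rho]
  let S₀ : L2 Λ →ₗᵢ[ℂ] L2 Λ := hb.orthogonalFamily.linearIsometry
  have hS₀ : ∀ g, S₀ (delta g) = rho g⁻¹ η := by
    intro g
    have h1 := hb.orthogonalFamily.linearIsometry_apply_single (i := g) (1 : ℂ)
    rw [LinearIsometry.toSpanSingleton_apply, one_smul] at h1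
    rw [← h1, delta]
  have hS₀' : InVN S₀.toContinuousLinearMap := by
    intro l f
    have h1 := ext_delta (T := S₀.toContinuousLinearMap.comp (clm (rho l)))
      (S := (clm (rho l)).comp S₀.toContinuousLinearMap) (fun a => ?_) f
    · exact h1
    · show S₀ (rho l (delta a)) = rho l (S₀ (delta a))
      rw [rho_delta, hS₀, hS₀, ← rho_mul, mul_inv_rev, inv_inv]
  have hsurj : Function.Surjective S₀ := fun y =>
    ⟨_, isometry_surj_left hS₀' (fun x => S₀.norm_map x) y⟩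
  let w : L2 Λ ≃ₗᵢ[ℂ] L2 Λ := LinearIsometryEquiv.ofSurjective S₀ hsurj
  have hwk : ∀ k, w (delta k) = rho k⁻¹ η := hS₀
  refine ⟨w, T, hS₀', hT', ?_, fun k f => ?_⟩
  · rw [hTd, hwk, inv_one, rho_one]
  · have h1 := ext_delta (T := (clm (v (j k))).comp (clm w))
      (S := (χ k : ℂ) • (clm w).comp (clm (lam (π k)))) (fun a => ?_) f
    · exact h1
    · show v (j k) (w (delta a)) = (χ k : ℂ) • w (lam (π k) (delta a))
      rw [lam_delta, hwk, hwk, hv (j k), hvη, map_smul, ← rho_mul, mul_inv_rev]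

end main

end Pool.Agent.K4H1.VN
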