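import Pool.Agent.K4H1.VN.St2

/-!
# The predicates used in the statements, III
-/

set_option autoImplicit false

namespace Pool.Agent.K4H1.VN

open Matrix

variable {R : Type} [CommRing R] {I : Type} [Fintype I] [DecidableEq I]
  {Γ : Subgroup (SpecialLinearGroup I R)} {Δ : Type} [Group Δ]

/-- `1 + m E_kl` is in the image of `j` for some `m ≠ 0` -/
def IsElem (j : Δ →* Γ) (k l : I) : Prop :=
  k ≠ l ∧ ∃ (d : Δ) (m : R), m ≠ 0 ∧ mat (j d) = transvection k l m

/-- Any two indices `k ≠ l` are joined by a chain of pairs `(p, q)` such that the image of `j`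
contains some `1 + m E_pq`, `m ≠ 0`, and `Γ` has no scalar matrix other than `1`; or this holds for
the indices `k ≠ l` other than one place `o`, and `Γ` has no `diag(a, …, a, b) ≠ 1`, with `b` in place
`o`. -/
def HasElems (j : Δ →* Γ) : Prop :=
  (∃ o : I, NoBlockScalar Γ o ∧
    ∀ k l : I, k ≠ l → k ≠ o → l ≠ o → Relation.TransGen (IsElem j) k l) ∨
  (NoScalar Γ ∧ ∀ k l : I, k ≠ l → Relation.TransGen (IsElem j) k l)

variable {Γ₁ Λ : Type} [Group Γ₁] [Group Λ]

/-- Conjugation by the unitary `U` is the map `θ`. Each of the unitaries `θ(u_g)`, `g = j b` with `b`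
in `B`, has a Fourier coefficient of absolute value more than `1 - ε`. -/
def AlmostGroupLikeOnImage (B : Finset Δ) (ε : ℝ) (j : Δ →* Γ₁) (U : L2 Γ₁ ≃ₗᵢ[ℂ] L2 Λ) : Prop :=
  ∀ b ∈ B, ∃ h : Λ, 1 - ε < ‖U (lam (j b) (U.symm (delta 1))) h‖

/-- `θ` is group-like up to conjugation: `w⁻¹ θ(u_g) w = χ(g) u_{π(g)}` for all `g`, for an
isomorphism of groups `π`, a character `χ` and a unitary `w` in `L(Λ)` -/
def IsGroupLikeUpToConj (U : L2 Γ₁ ≃ₗᵢ[ℂ] L2 Λ) : Prop :=
  ∃ (π : Γ₁ ≃* Λ) (χ : Γ₁ →* Circle) (w : Uni Λ), InVN w ∧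
    ∀ g f, U (lam g (U.symm (w f))) = (χ g : ℂ) • w (lam (π g) f)

/-- `B` and `ε` decide for all isomorphisms of `L(Γ)` with group von Neumann algebras: if such an
isomorphism is almost group-like on `j(B)`, then it is group-like up to conjugation -/
def Decides (B : Finset Δ) (ε : ℝ) (j : Δ →* Γ₁) : Prop :=
  ∀ (Λ : Type) [Group Λ] (U : L2 Γ₁ ≃ₗᵢ[ℂ] L2 Λ), IsSpatialIso U →
    AlmostGroupLikeOnImage B ε j U → IsGroupLikeUpToConj U

end Pool.Agent.K4H1.VN
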