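import Pool.Agent.K4H1.VN.Mx
import Pool.Agent.K4H1.VN.St3

/-!
# Relative conjugacy classes in groups of matrices
-/

set_option autoImplicit false

namespace Pool.Agent.K4H1.VN

open Matrix

variable {R : Type} [CommRing R] {I : Type} [Fintype I] [DecidableEq I]
  {Γ : Subgroup (SpecialLinearGroup I R)} {Δ : Type} [Group Δ]

theorem commute_of_finite {j : Δ →* Γ} {x : Γ}
    (h : {y : Γ | ∃ k : Δ, y = j k * x * (j k)⁻¹}.Finite) : x ∈ vc (Set.range j) := by
  rintro b ⟨d, rfl⟩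
  have h1 : ∃ a b : ℕ, a ≠ b ∧ j (d ^ a) * x * (j (d ^ a))⁻¹ = j (d ^ b) * x * (j (d ^ b))⁻¹ := by
    by_contra hcon
    push Not at hcon
    have hinj : Function.Injective fun a : ℕ => j (d ^ a) * x * (j (d ^ a))⁻¹ := by
      intro a b hab
      by_contra hne
      exact hcon a b hne hab
    exact Set.infinite_of_injective_forall_mem (s := {y : Γ | ∃ k : Δ, y = j k * x * (j k)⁻¹}) hinj
      (fun a => ⟨d ^ a, rfl⟩) h
  obtain ⟨a, b, hab, he⟩ := h1
  wlog hlt : a < b generalizing a b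
  · exact this b a hab.symm he.symm (by omega)
  refine ⟨b - a, by omega, ?_⟩
  obtain ⟨n, rfl⟩ := Nat.exists_eq_add_of_lt hlt
  have h2 : a + n + 1 - a = n + 1 := by omega
  rw [h2]
  have h3 : j (d ^ (a + n + 1)) = j (d ^ a) * j d ^ (n + 1) := by
    rw [← map_pow, ← map_mul, ← pow_add, add_assoc]
  rw [h3, _root_.mul_inv_rev] at he
  have h4 : x = j d ^ (n + 1) * x * (j d ^ (n + 1))⁻¹ := by
    have h5 := congrArg (fun y => (j (d ^ a))⁻¹ * y * j (d ^ a)) he
    simp only [mul_assoc, inv_mul_cancel, mul_one, inv_mul_cancel_left] at h5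
    rw [mul_assoc]
    exact h5
  exact (mul_inv_eq_iff_eq_mul.1 h4.symm).trans rfl

theorem center_rows (hI : 3 ≤ Fintype.card I) (hS : NoScalar Γ) (o : I) {x : Γ}
    (h : ∀ k l, k ≠ l → k ≠ o → Commute (E k l) (mat x)) : x = 1 := by
  obtain ⟨k₀, hk₀, -⟩ := exists_third hI o o
  have hdiag : ∀ l, mat x k₀ k₀ = mat x l l := by
    intro l
    by_cases hl : k₀ = l
    · rw [hl]
    · exact diag_eq_of_commute_single (h k₀ l hl hk₀)
  refine hS x (mat x k₀ k₀) ?_
  ext a b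
  rw [Matrix.smul_apply, Matrix.one_apply, smul_eq_mul]
  by_cases hab : a = b
  · subst hab
    rw [if_pos rfl, mul_one, hdiag a]
  · rw [if_neg hab, mul_zero]
    obtain ⟨k, hka, hko⟩ := exists_third hI a o
    exact row_eq_zero_of_commute_single (h k a hka hko) (Ne.symm hab)

theorem relIcc_of_elems [IsDomain R] [CharZero R] (hI : 3 ≤ Fintype.card I) {j : Δ →* Γ}
    (hj : HasElems j) (x : Γ) (hx : x ≠ 1) : {y : Γ | ∃ k : Δ, y = j k * x * (j k)⁻¹}.Infinite := by
  intro hfin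
  have hv := commute_of_finite hfin
  apply hx
  have hbase : ∀ {k l : I}, IsElem j k l → Commute (E k l) (mat x) := by
    rintro k l ⟨hkl, d, m, hm, hd⟩
    rw [transvection_eq] at hd
    exact vc_commute hv ⟨d, rfl⟩ hm (E_sq hkl) hd
  have key : ∀ k l : I, Relation.TransGen (IsElem j) k l → k ≠ l → Commute (E k l) (mat x) := by
    intro k l hkl
    induction hkl with
    | single h => exact fun _ => hbase h
    | tail h1 h2 ih =>
      rename_i b c
      intro _
      by_cases hkb : k = b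
      · subst hkb
        exact hbase h2
      · have h5 : (E k c : Matrix I I R) = E k b * E b c := by rw [E_mul_E, if_pos rfl]
        rw [h5]
        exact (ih hkb).mul_left (hbase h2)
  rcases hj with ⟨o, hd, hc⟩ | ⟨hS, hc⟩
  · exact block_center hI hd fun k l hkl hk hl => key k l (hc k l hkl hk hl) hkl
  · obtain ⟨o⟩ : Nonempty I := Fintype.card_pos_iff.1 (by omega)
    exact center_rows hI hS o fun k l hkl _ => key k l (hc k l hkl) hkl

section Full

variable {Λ : Type} [Group Λ] {U : L2 Γ ≃ₗᵢ[ℂ] L2 Λ}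

/-- group-like elements `1 + m E_kl` of `Γ` -/
def Sf (hU : IsStdIso U) (P : I → I → Prop) : Set Γ :=
  {b | b ∈ glSub hU ∧ ∃ k l, k ≠ l ∧ P k l ∧ ∃ m : R, m ≠ 0 ∧ mat b = 1 + m • E k l}

/-- all seeds -/
def SeedAll (hU : IsStdIso U) : Prop :=
  ∀ k l, k ≠ l → ∃ b ∈ glSub hU, ∃ m : R, m ≠ 0 ∧ mat b = 1 + m • E k l

variable {hU : IsStdIso U}

theorem comm_Sf [IsDomain R] [CharZero R] (hs : SeedAll hU) {P : I → I → Prop} {x : Γ}
    (hx : x ∈ vc (Sf hU P)) {k l : I} (hkl : k ≠ l) (hP : P k l) :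
    Commute (E k l) (mat x) := by
  obtain ⟨b, hb, m, hm, hbm⟩ := hs k l hkl
  exact vc_commute hx (b := b) ⟨hb, k, l, hkl, hP, m, hm, hbm⟩ hm (E_sq hkl) hbm

theorem mem_vc_Sf {P : I → I → Prop} {x : Γ}
    (h : ∀ k l, k ≠ l → P k l → Commute (E k l) (mat x)) : x ∈ vc (Sf hU P) := by
  apply mem_vc_of_commute
  rintro b ⟨-, k, l, hkl, hP, m, -, hbm⟩
  apply mat_inj
  rw [mat_mul, mat_mul, hbm, add_mul, mul_add, one_mul, mul_one, Matrix.smul_mul,
    Matrix.mul_smul, (h k l hkl hP).eq]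

theorem gl_full [IsDomain R] [CharZero R] (hI : 3 ≤ Fintype.card I) (hS : NoScalar Γ)
    (hs : SeedAll hU) {i o : I} (hi : i ≠ o) {a : R} {g : Γ} (hg : mat g = 1 + a • E i o) :
    g ∈ glSub hU := by
  obtain ⟨j, hji, hjo⟩ := exists_third hI i o
  obtain ⟨h, hh, m, hm, hhm⟩ := hs j i hji
  refine gl_step hU (S₁ := Sf hU fun k l => k ≠ o ∧ l ≠ i) (S₂ := Sf hU fun k l => k ≠ o ∧ l ≠ j)
    (fun b hb => hb.1) (fun b hb => hb.1) hh ?_ ?_ ?_ ?_
  · refine mem_vc_Sf fun k l hkl hP => ?_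
    rw [hg]
    exact comm_of_zero (by rw [E_mul_E, if_neg hP.2]) (by rw [E_mul_E, if_neg (Ne.symm hP.1)])
  · refine mem_vc_Sf fun k l hkl hP => ?_
    have hZ : mat (g⁻¹ * (h * g * h⁻¹)) = 1 + (a * m) • E j o := by
      apply mat_conj_eq
      rw [hg, hhm]
      simp only [mul_add, add_mul, mul_one, one_mul, smul_mul_smul_comm, E_mul_E, if_pos,
        if_neg (Ne.symm hjo), smul_zero, add_zero, zero_mul, Matrix.smul_mul, Matrix.mul_smul]
      rw [mul_comm m a]
      abel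
    rw [hZ]
    exact comm_of_zero (by rw [E_mul_E, if_neg hP.2]) (by rw [E_mul_E, if_neg (Ne.symm hP.1)])
  · intro x hx hx'
    refine center_rows hI hS o fun k l hkl hk => ?_
    by_cases hli : l = i
    · refine comm_Sf hs hx' hkl ⟨hk, ?_⟩
      rw [hli]
      exact hji.symm
    · exact comm_Sf hs hx hkl ⟨hk, hli⟩
  · intro x hx hx'
    have h1 : Commute (E i j) (mat x) := comm_Sf hs hx hji.symm ⟨hi, hji⟩
    have h2 : Commute (E i j) (mat (h⁻¹ * x * h)) := comm_Sf hs hx' hji.symm ⟨hi, hji⟩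
    have h3 : Commute (E j i) (mat x) := swap_comm hji.symm hm hhm h1 h2
    refine center_rows hI hS o fun k l hkl hk => ?_
    by_cases hli : l = i
    · subst hli
      by_cases hkj : k = j
      · rw [hkj]
        exact h3
      · have h4 : Commute (E k j) (mat x) := comm_Sf hs hx hkj ⟨hk, hji⟩
        have h5 : (E k l : Matrix I I R) = E k j * E j l := by rw [E_mul_E, if_pos rfl]
        rw [h5]
        exact h4.mul_left h3
    · exact comm_Sf hs hx hkl ⟨hk, hli⟩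

/-- **All seeds.** -/
theorem gl_of_all [IsDomain R] [CharZero R] (hI : 3 ≤ Fintype.card I) (hΓ : Rich Γ)
    (hS : NoScalar Γ) (hs : SeedAll hU) (g : Γ) : ∃ c k, Glk U g c k := by
  have hE : ∀ i j : I, i ≠ j → Gd (glSub hU) (E i j : Matrix I I R) := fun i j hij =>
    gd_of_rich hΓ hij fun a g hg => gl_full hI hS hs hij hg
  refine gl_final hU hI hS ?_ g
  intro u ψ hu hψ
  obtain ⟨j, hj⟩ := Function.ne_iff.1 hu
  exact ⟨u j, hj, gd_all hE hI u ψ hψ j⟩

theorem seed_of_trans [IsDomain R] [CharZero R] (hU : IsStdIso U) {k l : I}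
    (hkl : Relation.TransGen (IsSeed U) k l) (hne : k ≠ l) :
    ∃ b ∈ glSub hU, ∃ m : R, m ≠ 0 ∧ mat b = 1 + m • E k l := by
  have hbase : ∀ {k l : I}, IsSeed U k l →
      ∃ b ∈ glSub hU, ∃ m : R, m ≠ 0 ∧ mat b = 1 + m • E k l := by
    rintro k l ⟨-, g, m, hm, hg, hgl⟩
    refine ⟨g, (groupLikeAt_iff hU g).1 hgl, m, hm, ?_⟩
    rw [hg, transvection_eq]
  induction hkl with
  | single h => exact hbase h
  | tail h1 h2 ih =>
    rename_i b c
    by_cases hkb : k = b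
    · subst hkb
      exact hbase h2
    obtain ⟨x, hx, m, hm, hxm⟩ := ih hkb
    obtain ⟨y, hy, n, hn, hyn⟩ := hbase h2
    refine ⟨x * y * (y * x)⁻¹, (glSub hU).mul_mem ((glSub hU).mul_mem hx hy)
      ((glSub hU).inv_mem ((glSub hU).mul_mem hy hx)), m * n, mul_ne_zero hm hn, ?_⟩
    have hbc : b ≠ c := h2.1
    have h3 : mat (x * y) = (1 + (m * n) • E k c) * mat (y * x) := by
      rw [mat_mul, mat_mul, hxm, hyn]
      simp only [mul_add, add_mul, mul_one, one_mul, smul_mul_smul_comm, E_mul_E, if_pos,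
        if_neg (Ne.symm hne), if_neg (Ne.symm hbc), smul_zero, add_zero, zero_mul, mul_zero,
        Matrix.smul_mul, Matrix.mul_smul]
      abel
    rw [mat_mul, h3, mul_assoc, mat_mul_inv, mul_one]

end Full

/-- **Group-like on the image of `j`.** -/
theorem gl_of_elems [IsDomain R] [CharZero R] (hI : 3 ≤ Fintype.card I) (hΓ : Rich Γ)
    {j : Δ →* Γ} (hj : HasElems j) {Λ : Type} [Group Λ] {U : L2 Γ ≃ₗᵢ[ℂ] L2 Λ}
    (hU : IsStdIso U) (hgl : ∀ d, GroupLikeAt U (j d)) (g : Γ) : ∃ c k, Glk U g c k := by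
  have hmono : ∀ {k l : I}, IsElem j k l → IsSeed U k l := by
    rintro k l ⟨hkl, d, m, hm, hd⟩
    exact ⟨hkl, j d, m, hm, hd, hgl d⟩
  rcases hj with ⟨o, hd, hc⟩ | ⟨hS, hc⟩
  · exact gl_of_seeds hU hI hΓ hd (seedHyp_of_trans hU fun k l hkl hk hl =>
      Relation.TransGen.lift id (fun _ _ h => hmono h) _ _ (hc k l hkl hk hl)) g
  · exact gl_of_all (hU := hU) hI hΓ hS (fun k l hkl =>
      seed_of_trans hU (Relation.TransGen.lift id (fun _ _ h => hmono h) _ _ (hc k l hkl)) hkl) g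

end Pool.Agent.K4H1.VN
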