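import Pool.Agent.K4H1.VN.Defs

/-!
# Translations on `ℓ²(G)`, the commutation theorem and the trace
-/

set_option autoImplicit false

namespace Pool.Agent.K4H1.VN

open scoped ComplexConjugate InnerProductSpace

variable {G : Type} [Group G]

theorem rho_apply (g : G) (f : L2 G) (x : G) : rho g f x = f (x * g) := rfl

theorem lam_apply (g : G) (f : L2 G) (x : G) : lam g f x = f (g⁻¹ * x) := rfl

open Classical in
theorem delta_apply (g x : G) : (delta g : L2 G) x = if x = g then 1 else 0 := by
  rw [delta, lp.single_apply, Pi.single_apply]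

theorem L2ext {f f' : L2 G} (h : ∀ x, f x = f' x) : f = f' := lp.ext (funext h)

theorem rho_delta (g x : G) : rho g (delta x) = delta (x * g⁻¹) := by
  classical
  apply L2ext
  intro y
  rw [rho_apply, delta_apply, delta_apply]
  simp only [eq_mul_inv_iff_mul_eq]

theorem lam_delta (g x : G) : lam g (delta x) = delta (g * x) := by
  classical
  apply L2ext
  intro y
  rw [lam_apply, delta_apply, delta_apply]
  simp only [inv_mul_eq_iff_eq_mul]

theorem rho_mul (g h : G) (f : L2 G) : rho (g * h) f = rho g (rho h f) := by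
  apply L2ext
  intro x
  rw [rho_apply, rho_apply, rho_apply, mul_assoc]

theorem lam_mul (g h : G) (f : L2 G) : lam (g * h) f = lam g (lam h f) := by
  apply L2ext
  intro x
  rw [lam_apply, lam_apply, lam_apply, mul_inv_rev, mul_assoc]

theorem rho_one (f : L2 G) : rho 1 f = f := by
  apply L2ext
  intro x
  rw [rho_apply, mul_one]

theorem lam_one (f : L2 G) : lam 1 f = f := by
  apply L2ext
  intro x
  rw [lam_apply, inv_one, one_mul]

theorem rho_lam (g h : G) (f : L2 G) : rho g (lam h f) = lam h (rho g f) := by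
  apply L2ext
  intro x
  rw [rho_apply, lam_apply, lam_apply, rho_apply, mul_assoc]

theorem rho_inv_rho (g : G) (f : L2 G) : rho g⁻¹ (rho g f) = f := by
  rw [← rho_mul, inv_mul_cancel, rho_one]

theorem rho_rho_inv (g : G) (f : L2 G) : rho g (rho g⁻¹ f) = f := by
  rw [← rho_mul, mul_inv_cancel, rho_one]

theorem norm_delta (g : G) : ‖(delta g : L2 G)‖ = 1 := by
  classical
  rw [delta, lp.norm_single (by norm_num), norm_one]

theorem inner_delta (g : G) (f : L2 G) : ⟪delta g, f⟫_ℂ = f g := by
  classical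
  rw [delta, lp.inner_single_left]
  simp

theorem hasSum_delta (f : L2 G) : HasSum (fun x => f x • (delta x : L2 G)) f := by
  classical
  have h1 := lp.hasSum_single (p := 2) (by norm_num) f
  convert h1 using 2 with x
  apply L2ext
  intro y
  rw [lp.coeFn_smul, Pi.smul_apply, delta_apply, lp.single_apply, Pi.single_apply]
  split_ifs with h
  · rw [h, smul_eq_mul, mul_one]
  · rw [smul_zero]

theorem apply_hasSum (T : L2 G →L[ℂ] L2 G) (f : L2 G) (b : G) :
    HasSum (fun c => f c * T (delta c) b) (T f b) := by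
  have h1 := (innerSL ℂ (delta b : L2 G)).hasSum (T.hasSum (hasSum_delta f))
  simp only [innerSL_apply_apply, inner_delta, map_smul] at h1
  exact h1

theorem ext_delta {T S : L2 G →L[ℂ] L2 G} (h : ∀ a, T (delta a) = S (delta a)) (f : L2 G) :
    T f = S f := by
  apply L2ext
  intro b
  refine (apply_hasSum T f b).unique ?_
  simp only [h]
  exact apply_hasSum S f b

theorem InVN.delta_apply' {T : L2 G →L[ℂ] L2 G} (hT : InVN T) (a x : G) :
    T (delta a) x = T (delta 1) (x * a⁻¹) := by
  have h1 : (delta a : L2 G) = rho a⁻¹ (delta 1) := by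
    rw [rho_delta, inv_inv, one_mul]
  rw [h1, hT, rho_apply]

/-- `S` commutes with the left translations -/
def InVN' (S : L2 G → L2 G) : Prop := ∀ g f, S (lam g f) = lam g (S f)

theorem InVN'.delta_apply' {S : L2 G →L[ℂ] L2 G} (hS : InVN' S) (a x : G) :
    S (delta a) x = S (delta 1) (a⁻¹ * x) := by
  have h1 : (delta a : L2 G) = lam a (delta 1) := by
    rw [lam_delta, mul_one]
  rw [h1, hS, lam_apply]

/-- **The commutation theorem.** -/
theorem commutation {T S : L2 G →L[ℂ] L2 G} (hT : InVN T) (hS : InVN' S) (f : L2 G) :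
    T (S f) = S (T f) := by
  refine ext_delta (T := T.comp S) (S := S.comp T) (fun a => ?_) f
  apply L2ext
  intro b
  have h1 := apply_hasSum T (S (delta a)) b
  have h2 := apply_hasSum S (T (delta a)) b
  let e : G ≃ G := ⟨fun d => a * d⁻¹ * b, fun d => b * d⁻¹ * a, fun d => by group, fun d => by group⟩
  rw [← e.hasSum_iff] at h1
  have h3 : T (S (delta a)) b = S (T (delta a)) b := ?_
  · exact h3
  refine h1.unique ?_
  convert h2 using 1
  funext d
  show S (delta a) (a * d⁻¹ * b) * T (delta (a * d⁻¹ * b)) b = T (delta a) d * S (delta d) b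
  rw [hT.delta_apply' a d, hS.delta_apply' d b, hS.delta_apply' a, hT.delta_apply' (a * d⁻¹ * b) b,
    mul_comm (T (delta 1) (d * a⁻¹))]
  congr 2 <;> group

theorem trace_aux {T S : L2 G →L[ℂ] L2 G} (hT : ∀ c, T (delta c) 1 = T (delta 1) c⁻¹)
    (hS : ∀ c, S (delta c) 1 = S (delta 1) c⁻¹) : T (S (delta 1)) 1 = S (T (delta 1)) 1 := by
  have h1 := apply_hasSum T (S (delta 1)) 1
  have h2 := apply_hasSum S (T (delta 1)) 1
  rw [← (Equiv.inv G).hasSum_iff] at h1
  refine h1.unique ?_
  convert h2 using 1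
  funext d
  show S (delta 1) d⁻¹ * T (delta d⁻¹) 1 = T (delta 1) d * S (delta d) 1
  rw [hT, hS, inv_inv, mul_comm]

theorem trace_comm {T S : L2 G →L[ℂ] L2 G} (hT : InVN T) (hS : InVN S) :
    T (S (delta 1)) 1 = S (T (delta 1)) 1 :=
  trace_aux (fun c => by rw [hT.delta_apply' c 1, one_mul]) fun c => by
    rw [hS.delta_apply' c 1, one_mul]

theorem trace_comm' {T S : L2 G →L[ℂ] L2 G} (hT : InVN' T) (hS : InVN' S) :
    T (S (delta 1)) 1 = S (T (delta 1)) 1 :=
  trace_aux (fun c => by rw [hT.delta_apply' c 1, mul_one]) fun c => by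
    rw [hS.delta_apply' c 1, mul_one]

end Pool.Agent.K4H1.VN
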