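import Pool.Agent.K4H1.VN.Defs

/-!
# The predicates used in the statements
-/

set_option autoImplicit false

namespace Pool.Agent.K4H1.VN

/-- the group of unitary operators of `ℓ²(G)` -/
abbrev Uni (G : Type) : Type := L2 G ≃ₗᵢ[ℂ] L2 G

variable {Γ Λ : Type} [Group Γ] [Group Λ]

/-- `v` takes its values in the unitary group of `L(Λ)` -/
def InUL (v : Γ →* Uni Λ) : Prop := ∀ g, InVN (v g)

/-- each of the unitaries `v g`, `g ∈ B`, has a Fourier coefficient of absolute value more than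
`1 - ε` -/
def AlmostGroupLikeOn (B : Finset Γ) (ε : ℝ) (v : Γ →* Uni Λ) : Prop :=
  ∀ g ∈ B, ∃ h : Λ, 1 - ε < ‖v g (delta 1) h‖

/-- `v g` has trace `0` for all `g ≠ 1`: `v` comes from a trace preserving embedding of `L(Γ)` -/
def IsTracePreserving (v : Γ →* Uni Λ) : Prop := ∀ g, g ≠ 1 → v g (delta 1) 1 = 0

/-- `U` is a unitary operator of `ℓ²(Γ)` onto `ℓ²(Λ)` with `U L(Γ) U⁻¹ = L(Λ)` -/
def IsSpatialIso (U : L2 Γ ≃ₗᵢ[ℂ] L2 Λ) : Prop :=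
  ∀ T : L2 Γ →L[ℂ] L2 Γ, InVN T ↔ InVN fun f => U (T (U.symm f))

/-- `v g = U λ_g U⁻¹` for all `g` -/
def Implements (U : L2 Γ ≃ₗᵢ[ℂ] L2 Λ) (v : Γ →* Uni Λ) : Prop := ∀ g f, v g (U f) = U (lam g f)

/-- `v g ρ_{π g} η = χ g η` for all `g` -/
def Intertwines (v : Γ →* Uni Λ) (π : Γ → Λ) (χ : Γ →* Circle) (η : L2 Λ) : Prop :=
  ∀ g, v g (rho (π g) η) = (χ g : ℂ) • η

/-- `w` is a unitary of `L(Λ)` with `w⁻¹ (v g) w = χ g λ_{π g}` for all `g` -/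
def IsGroupLikeVia (v : Γ →* Uni Λ) (π : Γ → Λ) (χ : Γ →* Circle) (w : Uni Λ) : Prop :=
  InVN w ∧ ∀ g f, v g (w f) = (χ g : ℂ) • w (lam (π g) f)

end Pool.Agent.K4H1.VN
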